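import Mathlib

/-!
# Projections of closed sets along the Baire space have the property of Baire
-/

open Set Filter Topology

namespace Pool.Agent.H410R3.DG

section

variable {X : Type*} [TopologicalSpace X]

/-- The points at which `A` is everywhere non-meagre. -/
def nmSet (A : Set X) : Set X := {x | ∀ V ∈ 𝓝 x, ¬ IsMeagre (A ∩ V)}

theorem isClosed_nmSet (A : Set X) : IsClosed (nmSet A) := by
  rw [← isOpen_compl_iff, isOpen_iff_mem_nhds]
  intro x hx
  simp only [nmSet, mem_compl_iff, mem_ofPred_eq] at hx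
  push Not at hx
  obtain ⟨V, hV, hm⟩ := hx
  obtain ⟨W, hWV, hW, hxW⟩ := mem_nhds_iff.1 hV
  filter_upwards [hW.mem_nhds hxW] with y hy hy'
  exact hy' W (hW.mem_nhds hy) (hm.mono (inter_subset_inter_right A hWV))

theorem nmSet_subset_closure (A : Set X) : nmSet A ⊆ closure A := by
  intro x hx
  rw [mem_closure_iff_nhds]
  intro V hV
  have := nonempty_of_not_isMeagre (hx V hV)
  rwa [inter_comm] at this

theorem diff_nmSet [SecondCountableTopology X] (A : Set X) : IsMeagre (A \ nmSet A) := by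
  have h := TopologicalSpace.isBasis_countableBasis X
  have h1 : IsMeagre (⋃ b ∈ {b ∈ TopologicalSpace.countableBasis X | IsMeagre (A ∩ b)}, A ∩ b) := by
    refine isMeagre_biUnion ((TopologicalSpace.countable_countableBasis X).mono fun b hb => hb.1) ?_
    intro b hb
    exact hb.2
  refine h1.mono ?_
  rintro x ⟨hxA, hx⟩
  simp only [nmSet, mem_ofPred_eq] at hx
  push Not at hx
  obtain ⟨V, hV, hm⟩ := hx
  obtain ⟨b, hb, hxb, hbV⟩ := h.mem_nhds_iff.1 hV
  exact mem_biUnion (show b ∈ _ from ⟨hb, hm.mono (inter_subset_inter_right A hbV)⟩) ⟨hxA, hxb⟩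

theorem nmSet_iUnion [SecondCountableTopology X] (A : Set X) (B : ℕ → Set X)
    (hA : A ⊆ ⋃ n, B n) : IsMeagre (nmSet A \ ⋃ n, nmSet (B n)) := by
  refine IsNowhereDense.isMeagre ?_
  set N := nmSet A \ ⋃ n, nmSet (B n) with hN
  by_contra hne
  have hV : (interior (closure N)).Nonempty := by
    rw [nonempty_iff_ne_empty]
    exact hne
  set V := interior (closure N) with hVdef
  have hVo : IsOpen V := isOpen_interior
  have hVcl : V ⊆ closure N := interior_subset
  have hVA : V ⊆ nmSet A :=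
    hVcl.trans (closure_minimal sdiff_subset (isClosed_nmSet A))
  obtain ⟨x, hx⟩ := hV
  refine hVA hx V (hVo.mem_nhds hx) ?_
  -- V ∩ nmSet (B n) is nowhere dense
  have h1 : ∀ n, IsNowhereDense (V ∩ nmSet (B n)) := by
    intro n
    by_contra hne'
    have hW : (interior (closure (V ∩ nmSet (B n)))).Nonempty := by
      rw [nonempty_iff_ne_empty]
      exact hne'
    obtain ⟨w, hw⟩ := hW
    set W := interior (closure (V ∩ nmSet (B n))) with hWdef
    have hWo : IsOpen W := isOpen_interior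
    have h2 : (W ∩ (V ∩ nmSet (B n))).Nonempty :=
      mem_closure_iff.1 (interior_subset hw) W hWo hw
    obtain ⟨w', hw'W, hw'V, -⟩ := h2
    have h3 : (W ∩ V ∩ N).Nonempty :=
      mem_closure_iff.1 (hVcl hw'V) (W ∩ V) (hWo.inter hVo) ⟨hw'W, hw'V⟩
    obtain ⟨y, ⟨hyW, hyV⟩, hyN⟩ := h3
    have h4 : y ∈ nmSet (B n) :=
      closure_minimal inter_subset_right (isClosed_nmSet (B n)) (interior_subset hyW)
    exact hyN.2 (mem_iUnion.2 ⟨n, h4⟩)
  have h5 : IsMeagre (⋃ n, (V ∩ nmSet (B n))) := isMeagre_iUnion fun n => (h1 n).isMeagre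
  have h6 : IsMeagre (⋃ n, (B n \ nmSet (B n))) := isMeagre_iUnion fun n => diff_nmSet (B n)
  refine (h5.union h6).mono ?_
  rintro y ⟨hyA, hyV⟩
  obtain ⟨n, hn⟩ := mem_iUnion.1 (hA hyA)
  by_cases h : y ∈ nmSet (B n)
  · exact Or.inl (mem_iUnion.2 ⟨n, hyV, h⟩)
  · exact Or.inr (mem_iUnion.2 ⟨n, hn, h⟩)

/-- initial segments -/
def pre (z : ℕ → ℕ) (n : ℕ) : List ℕ := (List.range n).map z

theorem pre_succ (z : ℕ → ℕ) (n : ℕ) : pre z (n+1) = pre z n ++ [z n] := by
  simp [pre, List.range_succ]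

/-- the pieces of the projection -/
def pieceS (P : Set (X × (ℕ → ℕ))) (s : List ℕ) : Set X :=
  {x | ∃ z, (x, z) ∈ P ∧ pre z s.length = s}

theorem bp_proj [SecondCountableTopology X] (P : Set (X × (ℕ → ℕ))) (hP : IsClosed P) :
    ∃ D : Set X, IsClosed D ∧ {x | ¬ ((∃ z, (x, z) ∈ P) ↔ x ∈ D)} ∈ {N : Set X | IsMeagre N} := by
  set A : Set X := {x | ∃ z, (x, z) ∈ P} with hA
  have hA0 : pieceS P [] = A := by
    ext x; simp [pieceS, A, pre]
  refine ⟨nmSet A, isClosed_nmSet A, ?_⟩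
  have hsplit : ∀ s, pieceS P s ⊆ ⋃ n, pieceS P (s ++ [n]) := by
    rintro s x ⟨z, hz, hs⟩
    refine mem_iUnion.2 ⟨z s.length, z, hz, ?_⟩
    rw [List.length_append, List.length_singleton, pre_succ, hs]
  have hQ : ∀ s, IsMeagre (nmSet (pieceS P s) \ ⋃ n, nmSet (pieceS P (s ++ [n]))) :=
    fun s => nmSet_iUnion _ _ (hsplit s)
  have hQ' : IsMeagre (⋃ s : List ℕ, (nmSet (pieceS P s) \ ⋃ n, nmSet (pieceS P (s ++ [n])))) :=
    isMeagre_iUnion hQ
  refine ((diff_nmSet A).union hQ').mono ?_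
  intro x hx
  simp only [mem_ofPred_eq] at hx
  by_cases hxA : x ∈ A
  · left
    refine ⟨hxA, fun hxD => hx ⟨fun _ => hxD, fun _ => hxA⟩⟩
  · right
    have hxD : x ∈ nmSet A := by
      by_contra h
      exact hx ⟨fun h' => absurd h' hxA, fun h' => absurd h' h⟩
    by_contra hnot
    simp only [mem_iUnion, Set.mem_sdiff, not_exists, not_and, not_forall, not_not] at hnot
    have hstep : ∀ s : {s : List ℕ // x ∈ nmSet (pieceS P s)},
        ∃ n, x ∈ nmSet (pieceS P (s.1 ++ [n])) := fun s => hnot s.1 s.2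
    choose nx hnx using hstep
    let st : ℕ → {s : List ℕ // x ∈ nmSet (pieceS P s)} := fun k =>
      Nat.rec ⟨[], by rw [hA0]; exact hxD⟩ (fun _ s => ⟨s.1 ++ [nx s], hnx s⟩) k
    let z : ℕ → ℕ := fun k => nx (st k)
    have hst : ∀ k, (st k).1 = pre z k := by
      intro k
      induction k with
      | zero => simp [st, pre]
      | succ k ih =>
        rw [pre_succ, ← ih]
    have hcl : ∀ k, x ∈ closure (pieceS P (pre z k)) := by
      intro k
      have := nmSet_subset_closure _ (st k).2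
      rwa [hst k] at this
    have hxz : (x, z) ∈ P := by
      rw [← hP.closure_eq, mem_closure_iff_nhds]
      intro U hU
      rw [nhds_prod_eq, Filter.mem_prod_iff] at hU
      obtain ⟨V, hV, W, hW, hVW⟩ := hU
      obtain ⟨C, hC, hzC, hCW⟩ :=
        (PiNat.isTopologicalBasis_cylinders (fun _ : ℕ => ℕ)).mem_nhds_iff.1 hW
      obtain ⟨z0, n, rfl⟩ := hC
      obtain ⟨y, hyV, z', hz', hpre⟩ := mem_closure_iff_nhds.1 (hcl n) V hV
      refine ⟨(y, z'), hVW ⟨hyV, hCW ?_⟩, hz'⟩
      rw [PiNat.mem_cylinder_iff] at hzC ⊢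
      intro i hi
      rw [← hzC i hi]
      have hlen : (pre z n).length = n := by simp [pre]
      rw [hlen] at hpre
      simp only [pre, List.map_inj_left, List.mem_range] at hpre
      exact hpre i hi
    exact hxA ⟨z, hxz⟩

end

end Pool.Agent.H410R3.DG
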