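import Mathlib
import Pool.Agent.H410R3.KS.Defs

/-!
# Joint continuity of jets
-/

open Set Filter Topology
open scoped Manifold ContDiff

namespace Pool.Agent.H410R3.DG

section Jets

variable {Z : Type*} [TopologicalSpace Z] {E F G : Type*} [NormedAddCommGroup E] [NormedSpace ℝ E]
  [NormedAddCommGroup F] [NormedSpace ℝ F] [NormedAddCommGroup G] [NormedSpace ℝ G]

theorem comp_jet {z₀ : Z} {u : Z → F → G} {v : Z → E → F} {a : Z → E} {k : ℕ}
    (hu : ∀ᶠ ζ in 𝓝 z₀, ContDiffAt ℝ k (u ζ) (v ζ (a ζ)))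
    (hv : ∀ᶠ ζ in 𝓝 z₀, ContDiffAt ℝ k (v ζ) (a ζ))
    (cu : ∀ j ≤ k, ContinuousAt (fun ζ => iteratedFDeriv ℝ j (u ζ) (v ζ (a ζ))) z₀)
    (cv : ∀ j ≤ k, ContinuousAt (fun ζ => iteratedFDeriv ℝ j (v ζ) (a ζ)) z₀) :
    ContinuousAt (fun ζ => iteratedFDeriv ℝ k (u ζ ∘ v ζ) (a ζ)) z₀ := by
  have e : (fun ζ => iteratedFDeriv ℝ k (u ζ ∘ v ζ) (a ζ)) =ᶠ[𝓝 z₀]
      fun ζ => ∑ c : OrderedFinpartition k,
        (c.compAlongOrderedFinpartitionL ℝ E F G (iteratedFDeriv ℝ c.length (u ζ) (v ζ (a ζ))))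
          (fun m => iteratedFDeriv ℝ (c.partSize m) (v ζ) (a ζ)) := by
    filter_upwards [hu, hv] with ζ h1 h2
    rw [iteratedFDeriv_comp h1 h2 le_rfl]
    rfl
  refine ContinuousAt.congr ?_ e.symm
  refine tendsto_finsetSum _ fun c _ => ?_
  let B := c.compAlongOrderedFinpartitionL ℝ E F G
  have h1 : ContinuousAt (fun ζ => ((iteratedFDeriv ℝ c.length (u ζ) (v ζ (a ζ)),
      fun m => iteratedFDeriv ℝ (c.partSize m) (v ζ) (a ζ)) :
        (ContinuousMultilinearMap ℝ (fun _ : Fin c.length => F) G) ×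
          (∀ m : Fin c.length, ContinuousMultilinearMap ℝ (fun _ : Fin (c.partSize m) => E) F))) z₀ := by
    refine ContinuousAt.prodMk (cu _ c.length_le) ?_
    rw [continuousAt_pi]
    intro m
    exact cv _ (c.partSize_le m)
  exact (B.continuous_uncurry_of_multilinear.continuousAt).comp
    (f := fun ζ => ((iteratedFDeriv ℝ c.length (u ζ) (v ζ (a ζ)),
      fun m => iteratedFDeriv ℝ (c.partSize m) (v ζ) (a ζ)) :
        (ContinuousMultilinearMap ℝ (fun _ : Fin c.length => F) G) ×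
          (∀ m : Fin c.length, ContinuousMultilinearMap ℝ (fun _ : Fin (c.partSize m) => E) F))) h1

/-- The family `u` of functions, depending on a parameter, is of class `C^r` near the point `p` and
its derivatives are jointly continuous at `p`. -/
def JetAt (r : ℕ∞) (u : Z → E → F) (p : Z × E) : Prop :=
  (∀ᶠ q in 𝓝 p, ContDiffAt ℝ r (u q.1) q.2) ∧
    ∀ j : ℕ, (j : ℕ∞) ≤ r → ContinuousAt (fun q : Z × E => iteratedFDeriv ℝ j (u q.1) q.2) p

theorem JetAt.continuousAt {r : ℕ∞} {u : Z → E → F} {p : Z × E} (h : JetAt r u p) :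
    ContinuousAt (fun q : Z × E => u q.1 q.2) p := by
  have h1 := h.2 0 (by simp)
  have e : (fun q : Z × E => u q.1 q.2) =
      fun q : Z × E => (iteratedFDeriv ℝ 0 (u q.1) q.2) (fun _ => 0) := by
    funext q
    rw [iteratedFDeriv_zero_apply]
  rw [e]
  have h2 : Continuous (fun L : ContinuousMultilinearMap ℝ (fun _ : Fin 0 => E) F =>
      L (fun _ => 0)) := by fun_prop
  exact h2.continuousAt.comp (f := fun q : Z × E => iteratedFDeriv ℝ 0 (u q.1) q.2) h1

theorem JetAt.comp {r : ℕ∞} {u : Z → F → G} {v : Z → E → F} {p : Z × E}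
    (hu : JetAt r u (p.1, v p.1 p.2)) (hv : JetAt r v p) :
    JetAt r (fun f => u f ∘ v f) p := by
  have hc : ContinuousAt (fun q : Z × E => (q.1, v q.1 q.2)) p :=
    continuousAt_fst.prodMk hv.continuousAt
  have hu1 : ∀ᶠ q in 𝓝 p, ContDiffAt ℝ r (u q.1) (v q.1 q.2) := hc.eventually hu.1
  refine ⟨?_, fun j hj => ?_⟩
  · filter_upwards [hu1, hv.1] with q h1 h2
    exact h1.comp _ h2
  · have hjr : ((j : ℕ) : WithTop ℕ∞) ≤ (r : WithTop ℕ∞) := by exact_mod_cast hj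
    refine comp_jet (u := fun q : Z × E => u q.1) (v := fun q : Z × E => v q.1)
      (a := fun q => q.2) (k := j) ?_ ?_ ?_ ?_
    · filter_upwards [hu1] with q h1 using h1.of_le hjr
    · filter_upwards [hv.1] with q h1 using h1.of_le hjr
    · intro i hi
      have h3 := hu.2 i (le_trans (by exact_mod_cast hi) hj)
      exact ContinuousAt.comp (f := fun q : Z × E => (q.1, v q.1 q.2))
        (g := fun q : Z × F => iteratedFDeriv ℝ i (u q.1) q.2) h3 hc
    · intro i hi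
      exact hv.2 i (le_trans (by exact_mod_cast hi) hj)

theorem jetAt_const {r : ℕ∞} {G' : E → F} {Ω : Set E} (hΩ : IsOpen Ω) (hG : ContDiffOn ℝ r G' Ω)
    {p : Z × E} (hp : p.2 ∈ Ω) : JetAt r (fun _ : Z => G') p := by
  have ho : ∀ᶠ q : Z × E in 𝓝 p, q.2 ∈ Ω := continuousAt_snd.eventually (hΩ.mem_nhds hp)
  refine ⟨?_, fun j hj => ?_⟩
  · filter_upwards [ho] with q hq using (hG.contDiffAt (hΩ.mem_nhds hq))
  · have hjr : ((j : ℕ) : WithTop ℕ∞) ≤ (r : WithTop ℕ∞) := by exact_mod_cast hj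
    have h1 : ContinuousOn (fun w => iteratedFDeriv ℝ j G' w) Ω := by
      have h2 := hG.continuousOn_iteratedFDerivWithin hjr hΩ.uniqueDiffOn
      refine h2.congr fun w hw => ?_
      exact (iteratedFDerivWithin_of_isOpen j hΩ hw).symm
    exact (h1.continuousAt (hΩ.mem_nhds hp)).comp continuousAt_snd

theorem JetAt.congr {r : ℕ∞} {u u' : Z → E → F} {p : Z × E} (h : JetAt r u p)
    (e : ∀ᶠ q : Z × E in 𝓝 p, u' q.1 =ᶠ[𝓝 q.2] u q.1) : JetAt r u' p := by
  refine ⟨?_, fun j hj => ?_⟩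
  · filter_upwards [h.1, e] with q h1 h2 using h1.congr_of_eventuallyEq h2
  · refine (h.2 j hj).congr ?_
    filter_upwards [e] with q h2
    exact (h2.iteratedFDeriv ℝ j).eq_of_nhds.symm

end Jets

end Pool.Agent.H410R3.DG
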