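import Mathlib
import Pool.Agent.H410R3.DG.Jet

/-!
# The `C^r` topology and joint continuity of jets
-/

open Set Filter Topology
open scoped Manifold ContDiff

namespace Pool.Agent.H410R3.DG

open Pool.Agent.H410R3.KS

variable {E : Type} [NormedAddCommGroup E] [NormedSpace ℝ E] [FiniteDimensional ℝ E]
  {M : Type} [TopologicalSpace M] [ChartedSpace E M]

set_option linter.unusedSectionVars false

variable (E) in
/-- Joint continuity of the jets of a family of maps `M → M`, in charts. -/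
def JetM {X : Type*} [TopologicalSpace X] (r : ℕ∞) (F : X → M → M) : Prop :=
  ∀ (x y : M) (f : X) (w : E), w ∈ (chartAt E x).target →
    F f ((chartAt E x).symm w) ∈ (chartAt E y).source →
      JetAt r (fun f => localRep 𝓘(ℝ, E) x y (F f)) (f, w)

theorem localRep_eq (x y : M) (f : M → M) (w : E) :
    localRep 𝓘(ℝ, E) x y f w = (chartAt E y) (f ((chartAt E x).symm w)) := by
  simp [localRep, mfld_simps]

theorem contDiffOn_localRep {r : ℕ∞} [IsManifold 𝓘(ℝ, E) ∞ M] (x y : M) {f : M → M}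
    (hf : ContMDiff 𝓘(ℝ, E) 𝓘(ℝ, E) r f) :
    ContDiffOn ℝ r (localRep 𝓘(ℝ, E) x y f)
      {w | w ∈ (chartAt E x).target ∧ f ((chartAt E x).symm w) ∈ (chartAt E y).source} := by
  have _ : IsManifold 𝓘(ℝ, E) r M := IsManifold.of_le (n := ∞) (by exact_mod_cast le_top)
  rw [← contMDiffOn_iff_contDiffOn]
  have h1 : ContMDiffOn 𝓘(ℝ, E) 𝓘(ℝ, E) r (extChartAt 𝓘(ℝ, E) y) (chartAt E y).source :=
    contMDiffOn_extChartAt
  have h2 : ContMDiffOn 𝓘(ℝ, E) 𝓘(ℝ, E) r (extChartAt 𝓘(ℝ, E) x).symm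
      (extChartAt 𝓘(ℝ, E) x).target := contMDiffOn_extChartAt_symm x
  have h3 : ContMDiffOn 𝓘(ℝ, E) 𝓘(ℝ, E) r (fun w => f ((extChartAt 𝓘(ℝ, E) x).symm w))
      (extChartAt 𝓘(ℝ, E) x).target := hf.comp_contMDiffOn h2
  refine ContMDiffOn.comp (g := extChartAt 𝓘(ℝ, E) y) h1 (h3.mono ?_) ?_
  · rintro w ⟨hw, -⟩
    simpa [mfld_simps] using hw
  · rintro w ⟨-, hw⟩
    simpa [mfld_simps] using hw

theorem DiffR.contMDiff' {r : ℕ∞} (f : DiffR 𝓘(ℝ, E) M r) :
    ContMDiff 𝓘(ℝ, E) 𝓘(ℝ, E) r f.map := Diffeomorph.contMDiff_toFun f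

theorem isOpen_dom (x y : M) {f : M → M} (hf : Continuous f) :
    IsOpen {w | w ∈ (chartAt E x).target ∧ f ((chartAt E x).symm w) ∈ (chartAt E y).source} := by
  have h1 : ContinuousOn (fun w => f ((chartAt E x).symm w)) (chartAt E x).target :=
    hf.comp_continuousOn (chartAt E x).continuousOn_symm
  exact h1.isOpen_inter_preimage (chartAt E x).open_target (chartAt E y).open_source

theorem mem_basicNhd_self {r : ℕ∞} (f : DiffR 𝓘(ℝ, E) M r) {x y : M} {K : Set M} {k : ℕ} {ε : ℝ}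
    (hK : MapsTo f.map K (chartAt E y).source) (hε : 0 < ε) :
    f ∈ basicNhd 𝓘(ℝ, E) f x y K k ε := by
  refine ⟨hK, fun z _ j _ => ?_⟩
  simpa using hε

theorem exists_nhd_K {r : ℕ∞} (f : DiffR 𝓘(ℝ, E) M r) (x y : M) (z : M)
    (hx : z ∈ (chartAt E x).source) (hy : f.map z ∈ (chartAt E y).source) :
    ∃ K : Set M, IsCompact K ∧ z ∈ interior K ∧ K ⊆ (chartAt E x).source ∧
      MapsTo f.map K (chartAt E y).source := by
  have _ : LocallyCompactSpace M := ChartedSpace.locallyCompactSpace E M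
  have ho : IsOpen ((chartAt E x).source ∩ f.map ⁻¹' (chartAt E y).source) :=
    (chartAt E x).open_source.inter
      ((chartAt E y).open_source.preimage (Diffeomorph.continuous f))
  obtain ⟨K, hK, hz, hKs⟩ := exists_compact_subset ho (show z ∈ _ from ⟨hx, hy⟩)
  exact ⟨K, hK, hz, fun w hw => (hKs hw).1, fun w hw => (hKs hw).2⟩

theorem jetM_of_le {r : ℕ∞} [IsManifold 𝓘(ℝ, E) ∞ M]
    [t : TopologicalSpace (DiffR 𝓘(ℝ, E) M r)] (ht : t ≤ crTopology 𝓘(ℝ, E) M r) :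
    JetM E r (fun f : DiffR 𝓘(ℝ, E) M r => f.map) := by
  intro x y f w hw hfw
  set z := (chartAt E x).symm w with hz
  have hzx : z ∈ (chartAt E x).source := (chartAt E x).map_target hw
  obtain ⟨K, hK, hzK, hKx, hKy⟩ := exists_nhd_K f x y z hzx hfw
  -- the set of good pairs
  have hnb : ∀ (j : ℕ) (ε : ℝ), (j : ℕ∞) ≤ r → 0 < ε →
      ∀ᶠ q : DiffR 𝓘(ℝ, E) M r × E in 𝓝 (f, w), q.2 ∈ (chartAt E x).target ∧
        (chartAt E x).symm q.2 ∈ K ∧ q.1 ∈ basicNhd 𝓘(ℝ, E) f x y K j ε := by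
    intro j ε hj hε
    have h1 : ∀ᶠ g : DiffR 𝓘(ℝ, E) M r in 𝓝 f, g ∈ basicNhd 𝓘(ℝ, E) f x y K j ε := by
      have ho : @IsOpen _ (crTopology 𝓘(ℝ, E) M r) (basicNhd 𝓘(ℝ, E) f x y K j ε) :=
        TopologicalSpace.isOpen_generateFrom_of_mem
          ⟨f, x, y, K, j, ε, hK, hKx, hKy, hj, hε, rfl⟩
      exact (ht _ ho).mem_nhds (mem_basicNhd_self f hKy hε)
    have h2 : ∀ᶠ w' : E in 𝓝 w, w' ∈ (chartAt E x).target := (chartAt E x).open_target.mem_nhds hw
    have h3 : ∀ᶠ w' : E in 𝓝 w, (chartAt E x).symm w' ∈ K := by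
      have hc := (chartAt E x).continuousAt_symm hw
      exact hc.eventually (mem_interior_iff_mem_nhds.1 hzK)
    have h4 := h1.prod_nhds (h2.and h3)
    filter_upwards [h4] with q hq
    exact ⟨hq.2.1, hq.2.2, hq.1⟩
  refine ⟨?_, fun j hj => ?_⟩
  · filter_upwards [hnb 0 1 (by simp) one_pos] with q hq
    refine (contDiffOn_localRep x y (DiffR.contMDiff' q.1)).contDiffAt ?_
    exact (isOpen_dom x y (Diffeomorph.continuous q.1)).mem_nhds ⟨hq.1, hq.2.2.1 hq.2.1⟩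
  · rw [ContinuousAt, Metric.tendsto_nhds]
    intro ε hε
    have hcf : ContinuousAt (fun w' => iteratedFDeriv ℝ j (localRep 𝓘(ℝ, E) x y f.map) w') w := by
      have hjr : ((j : ℕ) : WithTop ℕ∞) ≤ (r : WithTop ℕ∞) := by exact_mod_cast hj
      exact (((contDiffOn_localRep x y (DiffR.contMDiff' f)).contDiffAt
        ((isOpen_dom x y (Diffeomorph.continuous f)).mem_nhds ⟨hw, hfw⟩)).of_le
          hjr).continuousAt_iteratedFDeriv le_rfl
    have hcf' := (Metric.tendsto_nhds.1 hcf (ε/2) (half_pos hε))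
    have h5 : ∀ᶠ q : DiffR 𝓘(ℝ, E) M r × E in 𝓝 (f, w),
        dist (iteratedFDeriv ℝ j (localRep 𝓘(ℝ, E) x y f.map) q.2)
          (iteratedFDeriv ℝ j (localRep 𝓘(ℝ, E) x y f.map) w) < ε/2 := by
      have hs : Tendsto (fun q : DiffR 𝓘(ℝ, E) M r × E => q.2) (𝓝 (f, w)) (𝓝 w) :=
        continuousAt_snd
      exact hs.eventually hcf'
    filter_upwards [hnb j (ε/2) hj (half_pos hε), h5] with q hq hq5
    have h6 := hq.2.2.2 _ hq.2.1 j le_rfl
    have h7 : extChartAt 𝓘(ℝ, E) x ((chartAt E x).symm q.2) = q.2 := by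
      simp [mfld_simps, hq.1]
    rw [h7, ← dist_eq_norm] at h6
    calc dist (iteratedFDeriv ℝ j (localRep 𝓘(ℝ, E) x y q.1.map) q.2)
          (iteratedFDeriv ℝ j (localRep 𝓘(ℝ, E) x y f.map) w)
        ≤ dist (iteratedFDeriv ℝ j (localRep 𝓘(ℝ, E) x y q.1.map) q.2)
          (iteratedFDeriv ℝ j (localRep 𝓘(ℝ, E) x y f.map) q.2) +
          dist (iteratedFDeriv ℝ j (localRep 𝓘(ℝ, E) x y f.map) q.2)
          (iteratedFDeriv ℝ j (localRep 𝓘(ℝ, E) x y f.map) w) := dist_triangle _ _ _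
      _ < ε/2 + ε/2 := add_lt_add h6 hq5
      _ = ε := by ring

/-- In a topology finer than the `C^r` topology, evaluation is continuous. -/
theorem continuous_eval_of_le {r : ℕ∞} [IsManifold 𝓘(ℝ, E) ∞ M]
    [t : TopologicalSpace (DiffR 𝓘(ℝ, E) M r)] (ht : t ≤ crTopology 𝓘(ℝ, E) M r) :
    Continuous (fun q : DiffR 𝓘(ℝ, E) M r × M => q.1.map q.2) := by
  rw [continuous_iff_continuousAt]
  rintro ⟨f, z⟩
  set y := f.map z with hy
  have hw : (chartAt E z) z ∈ (chartAt E z).target :=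
    (chartAt E z).map_source (mem_chart_source E z)
  have hsy : f.map ((chartAt E z).symm ((chartAt E z) z)) ∈ (chartAt E y).source := by
    rw [(chartAt E z).left_inv (mem_chart_source E z)]
    exact mem_chart_source E _
  have hj := jetM_of_le (r := r) ht z y f _ hw hsy
  have hc1 := hj.continuousAt
  -- (g, z') ↦ localRep z y g (chart z z')
  have hcz : ContinuousAt (fun q : DiffR 𝓘(ℝ, E) M r × M => (q.1, (chartAt E z) q.2)) (f, z) :=
    continuousAt_fst.prodMk (((chartAt E z).continuousAt (mem_chart_source E z)).comp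
      continuousAt_snd)
  have hc2 : ContinuousAt (fun q : DiffR 𝓘(ℝ, E) M r × M =>
      localRep 𝓘(ℝ, E) z y q.1.map ((chartAt E z) q.2)) (f, z) :=
    ContinuousAt.comp (f := fun q : DiffR 𝓘(ℝ, E) M r × M => (q.1, (chartAt E z) q.2))
      (g := fun q : DiffR 𝓘(ℝ, E) M r × E => localRep 𝓘(ℝ, E) z y q.1.map q.2) hc1 hcz
  have hval : localRep 𝓘(ℝ, E) z y f.map ((chartAt E z) z) = (chartAt E y) (f.map z) := by
    rw [localRep_eq, (chartAt E z).left_inv (mem_chart_source E z)]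
  have hc3 : ContinuousAt (fun q : DiffR 𝓘(ℝ, E) M r × M =>
      (chartAt E y).symm (localRep 𝓘(ℝ, E) z y q.1.map ((chartAt E z) q.2))) (f, z) := by
    refine ContinuousAt.comp (g := (chartAt E y).symm) ?_ hc2
    rw [hval]
    exact (chartAt E y).continuousAt_symm ((chartAt E y).map_source (mem_chart_source E _))
  refine hc3.congr ?_
  -- eventually g z' ∈ source y
  obtain ⟨K, hK, hzK, hKx, hKy⟩ := exists_nhd_K f z y z (mem_chart_source E z)
    (mem_chart_source E _)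
  have h1 : ∀ᶠ g : DiffR 𝓘(ℝ, E) M r in 𝓝 f, g ∈ basicNhd 𝓘(ℝ, E) f z y K 0 1 := by
    have ho : @IsOpen _ (crTopology 𝓘(ℝ, E) M r) (basicNhd 𝓘(ℝ, E) f z y K 0 1) :=
      TopologicalSpace.isOpen_generateFrom_of_mem
        ⟨f, z, y, K, 0, 1, hK, hKx, hKy, by simp, one_pos, rfl⟩
    exact (ht _ ho).mem_nhds (mem_basicNhd_self f hKy one_pos)
  have h2 : ∀ᶠ z' in 𝓝 z, z' ∈ K := mem_interior_iff_mem_nhds.1 hzK
  filter_upwards [h1.prod_nhds h2] with q hq
  rw [localRep_eq, (chartAt E z).left_inv (hKx hq.2), (chartAt E y).left_inv (hq.1.1 hq.2)]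

theorem le_of_jetM {r : ℕ∞} [IsManifold 𝓘(ℝ, E) ∞ M]
    [t : TopologicalSpace (DiffR 𝓘(ℝ, E) M r)]
    (hev : Continuous (fun q : DiffR 𝓘(ℝ, E) M r × M => q.1.map q.2))
    (hjet : JetM E r (fun f : DiffR 𝓘(ℝ, E) M r => f.map)) :
    t ≤ crTopology 𝓘(ℝ, E) M r := by
  refine le_generateFrom ?_
  rintro S ⟨f₀, x, y, K, k, ε, hK, hKx, hKy, hk, hε, rfl⟩
  rw [isOpen_iff_mem_nhds]
  intro g hg
  have key : ∀ z ∈ K, ∀ᶠ q : DiffR 𝓘(ℝ, E) M r × M in 𝓝 (g, z),
      q.1.map q.2 ∈ (chartAt E y).source ∧ ∀ j ∈ Finset.range (k+1),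
        ‖iteratedFDeriv ℝ j (localRep 𝓘(ℝ, E) x y q.1.map) (extChartAt 𝓘(ℝ, E) x q.2) -
          iteratedFDeriv ℝ j (localRep 𝓘(ℝ, E) x y f₀.map) (extChartAt 𝓘(ℝ, E) x q.2)‖ < ε := by
    intro z hz
    have hzx := hKx hz
    refine (hev.continuousAt.eventually ((chartAt E y).open_source.mem_nhds (hg.1 hz))).and ?_
    refine (Filter.eventually_all_finset _).2 fun j hj => ?_
    have hjk : j ≤ k := by simpa [Nat.lt_succ_iff] using hj
    have hjr : (j : ℕ∞) ≤ r := le_trans (by exact_mod_cast hjk) hk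
    have hw : (chartAt E x) z ∈ (chartAt E x).target := (chartAt E x).map_source hzx
    have hcz : ContinuousAt (fun q : DiffR 𝓘(ℝ, E) M r × M => (q.1, (chartAt E x) q.2)) (g, z) :=
      continuousAt_fst.prodMk (((chartAt E x).continuousAt hzx).comp continuousAt_snd)
    have hcz0 : ContinuousAt (fun q : DiffR 𝓘(ℝ, E) M r × M => (f₀, (chartAt E x) q.2)) (g, z) :=
      continuousAt_const.prodMk (((chartAt E x).continuousAt hzx).comp continuousAt_snd)
    have h1 := (hjet x y g _ hw (by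
      rw [(chartAt E x).left_inv hzx]; exact hg.1 hz)).2 j hjr
    have h2 := (hjet x y f₀ _ hw (by
      rw [(chartAt E x).left_inv hzx]; exact hKy hz)).2 j hjr
    have h3 := ContinuousAt.comp (f := fun q : DiffR 𝓘(ℝ, E) M r × M => (q.1, (chartAt E x) q.2))
      (g := fun q : DiffR 𝓘(ℝ, E) M r × E =>
        iteratedFDeriv ℝ j (localRep 𝓘(ℝ, E) x y q.1.map) q.2) h1 hcz
    have h4 := ContinuousAt.comp (f := fun q : DiffR 𝓘(ℝ, E) M r × M => (f₀, (chartAt E x) q.2))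
      (g := fun q : DiffR 𝓘(ℝ, E) M r × E =>
        iteratedFDeriv ℝ j (localRep 𝓘(ℝ, E) x y q.1.map) q.2) h2 hcz0
    have h5 := (h3.sub h4).norm
    have h6 := h5.eventually (gt_mem_nhds (show _ < ε from hg.2 z hz j hjk))
    filter_upwards [h6] with q hq
    exact hq
  have := hK.eventually_forall_of_forall_eventually (x₀ := g) (P := fun g' z =>
      g'.map z ∈ (chartAt E y).source ∧ ∀ j ∈ Finset.range (k+1),
        ‖iteratedFDeriv ℝ j (localRep 𝓘(ℝ, E) x y g'.map) (extChartAt 𝓘(ℝ, E) x z) -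
          iteratedFDeriv ℝ j (localRep 𝓘(ℝ, E) x y f₀.map) (extChartAt 𝓘(ℝ, E) x z)‖ < ε) key
  filter_upwards [this] with g' hg'
  refine ⟨fun z hz => (hg' z hz).1, fun z hz j hj => (hg' z hz).2 j ?_⟩
  simpa [Nat.lt_succ_iff] using hj

end Pool.Agent.H410R3.DG
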