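import Mathlib
import Pool.Agent.H410R3.DG.JetM

/-!
# Jets through an embedding into a vector space
-/

open Set Filter Topology
open scoped Manifold ContDiff

namespace Pool.Agent.H410R3.DG

open Pool.Agent.H410R3.KS

set_option linter.unusedSectionVars false

variable {E : Type} [NormedAddCommGroup E] [NormedSpace ℝ E] [FiniteDimensional ℝ E]
  {M : Type} [TopologicalSpace M] [ChartedSpace E M]

variable (E) in
/-- local smooth left inverses of `e`, in charts -/
def LocLeft {V : Type*} [NormedAddCommGroup V] [NormedSpace ℝ V] (e : M → V) : Prop :=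
  ∀ (y y₀ : M), y₀ ∈ (chartAt E y).source → ∃ (A : V → E) (Ω : Set V), IsOpen Ω ∧ e y₀ ∈ Ω ∧
    ContDiffOn ℝ ∞ A Ω ∧ ∀ᶠ y' in 𝓝 y₀, A (e y') = (chartAt E y) y'

variable (E M) in
theorem exists_emb [IsManifold 𝓘(ℝ, E) ∞ M] [CompactSpace M] [T2Space M] :
    ∃ (ι : Type) (_ : Fintype ι) (e : M → ι → E × ℝ),
      ContMDiff 𝓘(ℝ, E) 𝓘(ℝ, ι → E × ℝ) ∞ e ∧ LocLeft E e := by
  obtain ⟨ι, fs, -⟩ := SmoothBumpCovering.exists_isSubordinate 𝓘(ℝ, E) isClosed_univ
    (fun (x : M) _ => univ_mem)
  have hfin := fs.fintype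
  refine ⟨ι, hfin, fun x i => (fs i x • extChartAt 𝓘(ℝ, E) (fs.c i) x, fs i x), ?_, ?_⟩
  · exact contMDiff_pi_space.2 fun i =>
      ((fs i).contMDiff_smul contMDiffOn_extChartAt).prodMk_space (fs i).contMDiff
  · intro y y₀ hy
    set i := fs.ind y₀ (mem_univ _) with hi
    have h1 : fs i =ᶠ[𝓝 y₀] 1 := fs.eventuallyEq_one y₀ (mem_univ _)
    have h2 : y₀ ∈ (chartAt E (fs.c i)).source := fs.mem_chartAt_ind_source y₀ (mem_univ _)
    have hπ : ContDiff ℝ ∞ (fun v : ι → E × ℝ => (v i).1) := by fun_prop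
    refine ⟨fun v => localRep 𝓘(ℝ, E) (fs.c i) y id (v i).1,
      (fun v : ι → E × ℝ => (v i).1) ⁻¹' {w | w ∈ (chartAt E (fs.c i)).target ∧
        id ((chartAt E (fs.c i)).symm w) ∈ (chartAt E y).source}, ?_, ?_, ?_, ?_⟩
    · exact (isOpen_dom (fs.c i) y continuous_id).preimage hπ.continuous
    · have h3 : fs i y₀ = 1 := h1.eq_of_nhds
      simp only [mem_preimage, mem_ofPred_eq]
      rw [h3]
      simp only [one_smul, mfld_simps, id]
      rw [(chartAt E (fs.c i)).left_inv h2]
      exact ⟨(chartAt E (fs.c i)).map_source h2, hy⟩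
    · have h4 := contDiffOn_localRep (E := E) (r := ⊤) (fs.c i) y (f := (id : M → M)) contMDiff_id
      have h5 := h4.comp (s := (fun v : ι → E × ℝ => (v i).1) ⁻¹'
        {w | w ∈ (chartAt E (fs.c i)).target ∧
        id ((chartAt E (fs.c i)).symm w) ∈ (chartAt E y).source}) hπ.contDiffOn (fun v hv => hv)
      exact h5
    · filter_upwards [h1, (chartAt E (fs.c i)).open_source.mem_nhds h2] with y' h6 h7
      rw [h6]
      simp only [Pi.one_apply, one_smul, localRep_eq, mfld_simps, id]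
      rw [(chartAt E (fs.c i)).left_inv h7]

variable (E M) in
theorem exists_cover [CompactSpace M] :
    ∃ (ρ : M → ℝ) (t : Finset M),
      (∀ z, 0 < ρ z ∧ Metric.closedBall ((chartAt E z) z) (ρ z) ⊆ (chartAt E z).target) ∧
      ∀ z, ∃ c ∈ t, z ∈ (chartAt E c).source ∧ (chartAt E c) z ∈
        Metric.ball ((chartAt E c) c) (ρ c) := by
  have h1 : ∀ z : M, ∃ ρ : ℝ, 0 < ρ ∧
      Metric.closedBall ((chartAt E z) z) ρ ⊆ (chartAt E z).target := by
    intro z
    have := (chartAt E z).open_target.mem_nhds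
      ((chartAt E z).map_source (mem_chart_source E z))
    exact Metric.nhds_basis_closedBall.mem_iff.1 this
  choose ρ hρ using h1
  let U : M → Set M := fun c => (chartAt E c).source ∩ (chartAt E c) ⁻¹'
    Metric.ball ((chartAt E c) c) (ρ c)
  have hU : ∀ c, U c ∈ 𝓝 c := by
    intro c
    refine Filter.inter_mem ((chartAt E c).open_source.mem_nhds (mem_chart_source E c)) ?_
    exact ((chartAt E c).continuousAt (mem_chart_source E c)).preimage_mem_nhds
      (Metric.ball_mem_nhds _ (hρ c).1)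
  obtain ⟨t, -, ht⟩ := isCompact_univ.elim_nhds_subcover U (fun c _ => hU c)
  refine ⟨ρ, t, hρ, fun z => ?_⟩
  have := ht (mem_univ z)
  simp only [mem_iUnion, exists_prop] at this
  obtain ⟨c, hc, h1, h2⟩ := this
  exact ⟨c, hc, h1, h2⟩

section

variable {X : Type*} [TopologicalSpace X] {F : X → M → M} {r : ℕ∞}
  {V : Type*} [NormedAddCommGroup V] [NormedSpace ℝ V] {e : M → V}

theorem continuousAt_comb (hev : Continuous (fun q : X × M => F q.1 q.2)) (c : M) (f : X) (w : E)
    (hw : w ∈ (chartAt E c).target) :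
    ContinuousAt (fun q : X × E => F q.1 ((chartAt E c).symm q.2)) (f, w) := by
  have h1 : ContinuousAt (fun q : X × E => (q.1, (chartAt E c).symm q.2)) (f, w) :=
    continuousAt_fst.prodMk (((chartAt E c).continuousAt_symm hw).comp continuousAt_snd)
  exact ContinuousAt.comp (f := fun q : X × E => (q.1, (chartAt E c).symm q.2))
    (g := fun q : X × M => F q.1 q.2) hev.continuousAt h1

theorem jetE_of_jetM [IsManifold 𝓘(ℝ, E) ∞ M]
    (hev : Continuous (fun q : X × M => F q.1 q.2)) (hj : JetM E r F)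
    (he : ContMDiff 𝓘(ℝ, E) 𝓘(ℝ, V) ∞ e) (c : M) (f : X) (w : E) (hw : w ∈ (chartAt E c).target) :
    JetAt r (fun f w => e (F f ((chartAt E c).symm w))) (f, w) := by
  set y := F f ((chartAt E c).symm w) with hy
  have hyy : F f ((chartAt E c).symm w) ∈ (chartAt E y).source := mem_chart_source E _
  have h1 := hj c y f w hw hyy
  -- e ∘ chart⁻¹
  have h2 : ContDiffOn ℝ r (fun v => e ((chartAt E y).symm v)) (chartAt E y).target := by
    have h3 : ContMDiffOn 𝓘(ℝ, E) 𝓘(ℝ, E) ∞ (extChartAt 𝓘(ℝ, E) y).symm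
      (extChartAt 𝓘(ℝ, E) y).target := contMDiffOn_extChartAt_symm y
    have h4 : ContMDiffOn 𝓘(ℝ, E) 𝓘(ℝ, V) ∞ (fun v => e ((extChartAt 𝓘(ℝ, E) y).symm v))
      (extChartAt 𝓘(ℝ, E) y).target := he.comp_contMDiffOn h3
    rw [contMDiffOn_iff_contDiffOn] at h4
    simp only [mfld_simps] at h4
    exact h4.of_le (by exact_mod_cast le_top)
  have h5 : localRep 𝓘(ℝ, E) c y (F f) w ∈ (chartAt E y).target := by
    rw [localRep_eq]; exact (chartAt E y).map_source hyy
  have h6 := (jetAt_const (Z := X) (chartAt E y).open_target h2 (p := (f, localRep 𝓘(ℝ, E) c y (F f) w)) h5)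
  have h7 := JetAt.comp (p := (f, w)) h6 h1
  refine h7.congr ?_
  have h8 : ∀ᶠ q : X × E in 𝓝 (f, w), F q.1 ((chartAt E c).symm q.2) ∈ (chartAt E y).source :=
    (continuousAt_comb hev c f w hw).eventually ((chartAt E y).open_source.mem_nhds hyy)
  filter_upwards [eventually_eventually_nhds.2 h8] with q hq
  have h9 : ∀ᶠ w' in 𝓝 q.2, F q.1 ((chartAt E c).symm w') ∈ (chartAt E y).source := by
    have : Tendsto (fun w' : E => (q.1, w')) (𝓝 q.2) (𝓝 q) := by
      have h := (continuous_const.prodMk continuous_id : Continuous (fun w' : E => (q.1, w'))).tendsto q.2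
      exact h
    exact this.eventually hq
  filter_upwards [h9] with w' hw'
  simp only [Function.comp, localRep_eq]
  rw [(chartAt E y).left_inv hw']

theorem jetM_of_jetE [IsManifold 𝓘(ℝ, E) ∞ M]
    (hev : Continuous (fun q : X × M => F q.1 q.2)) (he : LocLeft E e)
    (hcov : ∀ z : M, ∃ c : M, z ∈ (chartAt E c).source ∧
      ∀ f : X, JetAt r (fun f w => e (F f ((chartAt E c).symm w))) (f, (chartAt E c) z)) :
    JetM E r F := by
  intro x y f w hw hfw
  obtain ⟨c, hc, hJ⟩ := hcov ((chartAt E x).symm w)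
  obtain ⟨A, Ω, hΩ, hyΩ, hA, hAe⟩ := he y (F f ((chartAt E x).symm w)) hfw
  -- transition from x to c
  have h1 : ContDiffOn ℝ r (localRep 𝓘(ℝ, E) x c id) _ :=
    contDiffOn_localRep (r := r) x c (f := (id : M → M)) contMDiff_id
  have h2 : JetAt (Z := X) r (fun _ => localRep 𝓘(ℝ, E) x c id) (f, w) :=
    jetAt_const (isOpen_dom x c continuous_id) h1 ⟨hw, hc⟩
  have h3 : localRep 𝓘(ℝ, E) x c id w = (chartAt E c) ((chartAt E x).symm w) := by
    rw [localRep_eq]; rfl
  have h4 : JetAt r (fun f w => e (F f ((chartAt E c).symm w))) (f, localRep 𝓘(ℝ, E) x c id w) := by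
    rw [h3]; exact hJ f
  have h5 := JetAt.comp (p := (f, w)) h4 h2
  have h6 : e (F f ((chartAt E c).symm (localRep 𝓘(ℝ, E) x c id w))) ∈ Ω := by
    rw [h3, (chartAt E c).left_inv hc]; exact hyΩ
  have h7 : JetAt (Z := X) r (fun _ => A)
      (f, ((fun w => e (F f ((chartAt E c).symm w))) ∘ localRep 𝓘(ℝ, E) x c id) w) :=
    jetAt_const hΩ (hA.of_le (by exact_mod_cast le_top)) h6
  have h8 := JetAt.comp (p := (f, w)) h7 h5
  refine h8.congr ?_
  -- eventual equality
  have h9 : ∀ᶠ q : X × E in 𝓝 (f, w), A (e (F q.1 ((chartAt E x).symm q.2))) =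
      (chartAt E y) (F q.1 ((chartAt E x).symm q.2)) :=
    (continuousAt_comb hev x f w hw).eventually hAe
  have h10 : ∀ᶠ q : X × E in 𝓝 (f, w), (chartAt E x).symm q.2 ∈ (chartAt E c).source := by
    have : ContinuousAt (fun q : X × E => (chartAt E x).symm q.2) (f, w) :=
      ((chartAt E x).continuousAt_symm hw).comp continuousAt_snd
    exact this.eventually ((chartAt E c).open_source.mem_nhds hc)
  filter_upwards [eventually_eventually_nhds.2 (h9.and h10)] with q hq
  have h11 : ∀ᶠ w' in 𝓝 q.2, A (e (F q.1 ((chartAt E x).symm w'))) =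
      (chartAt E y) (F q.1 ((chartAt E x).symm w')) ∧
      (chartAt E x).symm w' ∈ (chartAt E c).source := by
    have : Tendsto (fun w' : E => (q.1, w')) (𝓝 q.2) (𝓝 q) := by
      have h := (continuous_const.prodMk continuous_id : Continuous (fun w' : E => (q.1, w'))).tendsto q.2
      exact h
    exact this.eventually hq
  filter_upwards [h11] with w' hw'
  simp only [Function.comp, localRep_eq, id]
  rw [(chartAt E c).left_inv hw'.2, hw'.1]

end

end Pool.Agent.H410R3.DG
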