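import Mathlib

/-!
# Images of Polish spaces under continuous maps with Borel saturations are Borel
-/

open Set Filter Topology MeasureTheory TopologicalSpace

namespace Pool.Agent.H410R3.DG

section

variable {G Y : Type*}

/-- the balls used in the selection -/
noncomputable def selV [PseudoMetricSpace G] (q : ℕ → G) : List ℕ → Set G
  | [] => univ
  | (n :: s) => selV q s ∩ Metric.ball (q n) ((1/2 : ℝ) ^ s.length)

theorem selV_open [PseudoMetricSpace G] (q : ℕ → G) (s : List ℕ) : IsOpen (selV q s) := by
  induction s with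
  | nil => exact isOpen_univ
  | cons n s ih => exact ih.inter Metric.isOpen_ball

open Classical in
/-- next index, as a function of the image point -/
noncomputable def selN' [PseudoMetricSpace G] (φ : G → Y) (q : ℕ → G) (s : List ℕ) (y : Y) : ℕ :=
  if h : ∃ n, y ∈ φ '' selV q (n :: s) then Nat.find h else 0

/-- next index -/
noncomputable def selN [PseudoMetricSpace G] (φ : G → Y) (q : ℕ → G) (s : List ℕ) (x : G) : ℕ :=
  selN' φ q s (φ x)

/-- state -/
noncomputable def selA [PseudoMetricSpace G] (φ : G → Y) (q : ℕ → G) (x : G) : ℕ → List ℕ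
  | 0 => []
  | (k + 1) => selN φ q (selA φ q x k) x :: selA φ q x k

theorem selA_length [PseudoMetricSpace G] (φ : G → Y) (q : ℕ → G) (x : G) (k : ℕ) :
    (selA φ q x k).length = k := by
  induction k with
  | zero => rfl
  | succ k ih => simp [selA, ih]

theorem selA_congr [PseudoMetricSpace G] (φ : G → Y) (q : ℕ → G) {x x' : G} (h : φ x = φ x')
    (k : ℕ) : selA φ q x k = selA φ q x' k := by
  have hn : ∀ s, selN φ q s x = selN φ q s x' := by
    intro s
    simp only [selN, h]
  induction k with
  | zero => rfl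
  | succ k ih => simp only [selA, ih, hn]

theorem selA_inv [PseudoMetricSpace G] (φ : G → Y) (q : ℕ → G) (hq : DenseRange q) (x : G)
    (k : ℕ) : φ x ∈ φ '' selV q (selA φ q x k) := by
  classical
  induction k with
  | zero => exact ⟨x, mem_univ _, rfl⟩
  | succ k ih =>
    obtain ⟨y, hy, hyx⟩ := ih
    have hex : ∃ n, φ x ∈ φ '' selV q (n :: selA φ q x k) := by
      obtain ⟨n, hn⟩ := hq.exists_dist_lt y (show (0:ℝ) < (1/2 : ℝ) ^ (selA φ q x k).length by positivity)
      exact ⟨n, y, ⟨hy, hn⟩, hyx⟩
    have : selN φ q (selA φ q x k) x = Nat.find hex := by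
      unfold selN selN'
      rw [dif_pos hex]
    show φ x ∈ φ '' selV q (selN φ q (selA φ q x k) x :: selA φ q x k)
    rw [this]
    exact Nat.find_spec hex

theorem selN_meas [PseudoMetricSpace G] [MeasurableSpace G] (φ : G → Y) (q : ℕ → G)
    (hsat : ∀ U : Set G, IsOpen U → MeasurableSet (φ ⁻¹' (φ '' U))) (s : List ℕ) :
    Measurable (selN φ q s) := by
  classical
  have hne : ∀ x : G, ∃ n, φ x ∈ φ '' selV q (n :: s) ∨
      (n = 0 ∧ ∀ m, φ x ∉ φ '' selV q (m :: s)) := by
    intro x
    by_cases h : ∃ n, φ x ∈ φ '' selV q (n :: s)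
    · obtain ⟨n, hn⟩ := h
      exact ⟨n, Or.inl hn⟩
    · push Not at h
      exact ⟨0, Or.inr ⟨rfl, h⟩⟩
  have e : selN φ q s = fun x => Nat.find (hne x) := by
    funext x
    unfold selN selN'
    by_cases h : ∃ n, φ x ∈ φ '' selV q (n :: s)
    · rw [dif_pos h]
      symm
      rw [Nat.find_eq_iff]
      refine ⟨Or.inl (Nat.find_spec h), fun n hn => ?_⟩
      rintro (h1 | ⟨h1, h2⟩)
      · exact Nat.find_min h hn h1
      · obtain ⟨m, hm⟩ := h
        exact h2 m hm
    · rw [dif_neg h]
      symm
      rw [Nat.find_eq_zero]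
      push Not at h
      exact Or.inr ⟨rfl, h⟩
  rw [e]
  refine measurable_find hne fun k => ?_
  have : {x : G | φ x ∈ φ '' selV q (k :: s) ∨
      (k = 0 ∧ ∀ m, φ x ∉ φ '' selV q (m :: s))} =
      (φ ⁻¹' (φ '' selV q (k :: s))) ∪
        ({x : G | k = 0} ∩ ⋂ m, (φ ⁻¹' (φ '' selV q (m :: s)))ᶜ) := by
    ext x
    simp
  rw [this]
  refine (hsat _ (selV_open q _)).union ((MeasurableSet.const _).inter
    (MeasurableSet.iInter fun m => (hsat _ (selV_open q _)).compl))

theorem selA_meas [PseudoMetricSpace G] [MeasurableSpace G] (φ : G → Y) (q : ℕ → G)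
    (hsat : ∀ U : Set G, IsOpen U → MeasurableSet (φ ⁻¹' (φ '' U))) (k : ℕ) (s : List ℕ) :
    MeasurableSet {x | selA φ q x k = s} := by
  induction k generalizing s with
  | zero =>
    simp only [selA]
    exact MeasurableSet.const _
  | succ k ih =>
    cases s with
    | nil => simp [selA]
    | cons n s =>
      have : {x | selA φ q x (k+1) = n :: s} =
          {x | selA φ q x k = s} ∩ {x | selN φ q s x = n} := by
        ext x
        simp only [selA, List.cons.injEq, mem_ofPred_eq, mem_inter_iff]
        constructor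
        · rintro ⟨h1, h2⟩
          refine ⟨h2, ?_⟩
          rw [← h2]; exact h1
        · rintro ⟨h1, h2⟩
          refine ⟨?_, h1⟩
          rw [h1]; exact h2
      rw [this]
      exact (ih s).inter ((selN_meas φ q hsat s) (measurableSet_singleton n))

theorem range_borel [TopologicalSpace G] [PolishSpace G]
    [TopologicalSpace Y] [T2Space Y] [SecondCountableTopology Y] [MeasurableSpace Y] [BorelSpace Y]
    (φ : G → Y) (hφ : Continuous φ)
    (hsat : ∀ U : Set G, IsOpen U → MeasurableSet[borel G] (φ ⁻¹' (φ '' U))) :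
    MeasurableSet (range φ) := by
  classical
  rcases isEmpty_or_nonempty G with hG | hG
  · rw [range_eq_empty]; exact MeasurableSet.empty
  let _ := upgradeIsCompletelyMetrizable G
  let _ : MeasurableSpace G := borel G
  have _ : BorelSpace G := ⟨rfl⟩
  set q : ℕ → G := denseSeq G with hq
  have hqd : DenseRange q := denseRange_denseSeq G
  -- the head index
  let c : ℕ → G → G := fun k x => q (selN φ q (selA φ q x k) x)
  -- points in the class
  have hp : ∀ x k, ∃ y, y ∈ selV q (selA φ q x k) ∧ φ y = φ x := fun x k => selA_inv φ q hqd x k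
  choose p hpV hpφ using hp
  have hp1 : ∀ x k, dist (p x (k+1)) (c k x) < (1/2:ℝ)^k := by
    intro x k
    have h := hpV x (k+1)
    have h2 : p x (k+1) ∈ Metric.ball (c k x) ((1/2:ℝ)^(selA φ q x k).length) := h.2
    rw [selA_length] at h2
    exact h2
  have hp2 : ∀ x k, dist (p x (k+2)) (c k x) < (1/2:ℝ)^k := by
    intro x k
    have h := hpV x (k+2)
    have h1 : p x (k+2) ∈ selV q (selA φ q x (k+1)) := h.1
    have h2 : p x (k+2) ∈ Metric.ball (c k x) ((1/2:ℝ)^(selA φ q x k).length) := h1.2
    rw [selA_length] at h2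
    exact h2
  have hcauchy : ∀ x, CauchySeq (fun k => c k x) := by
    intro x
    refine cauchySeq_of_le_geometric (1/2:ℝ) 2 (by norm_num) fun k => ?_
    have h1 := hp2 x k
    have h2 := hp1 x (k+1)
    calc dist (c k x) (c (k+1) x) ≤ dist (c k x) (p x (k+2)) + dist (p x (k+2)) (c (k+1) x) :=
          dist_triangle _ _ _
      _ ≤ (1/2:ℝ)^k + (1/2:ℝ)^(k+1) := by
          rw [dist_comm (c k x)]
          exact add_le_add h1.le h2.le
      _ ≤ 2 * (1/2:ℝ)^k := by
          rw [pow_succ]
          have : (0:ℝ) < (1/2:ℝ)^k := by positivity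
          linarith
  have hlim : ∀ x, ∃ y, Tendsto (fun k => c k x) atTop (𝓝 y) :=
    fun x => cauchySeq_tendsto_of_complete (hcauchy x)
  choose σ hσ using hlim
  -- σ x is in the class of x
  have hσφ : ∀ x, φ (σ x) = φ x := by
    intro x
    have h0 : Tendsto (fun k => dist (p x (k+1)) (c k x)) atTop (𝓝 0) := by
      refine squeeze_zero (fun _ => dist_nonneg) (fun k => (hp1 x k).le) ?_
      exact tendsto_pow_atTop_nhds_zero_of_lt_one (by norm_num) (by norm_num)
    have h1 : Tendsto (fun k => p x (k+1)) atTop (𝓝 (σ x)) := by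
      refine (tendsto_iff_of_dist ?_).2 (hσ x)
      exact h0
    have h2 : Tendsto (fun k => φ (p x (k+1))) atTop (𝓝 (φ (σ x))) :=
      (hφ.tendsto _).comp h1
    have h3 : (fun k => φ (p x (k+1))) = fun _ => φ x := by
      funext k; exact hpφ x (k+1)
    rw [h3] at h2
    exact (tendsto_nhds_unique h2 tendsto_const_nhds)
  have hσc : ∀ x x', φ x = φ x' → σ x = σ x' := by
    intro x x' h
    have h1 : (fun k => c k x) = fun k => c k x' := by
      funext k
      show q (selN φ q (selA φ q x k) x) = q (selN φ q (selA φ q x' k) x')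
      have h2 := selA_congr φ q h (k+1)
      simp only [selA, List.cons.injEq] at h2
      rw [h2.1]
    have := hσ x
    rw [h1] at this
    exact tendsto_nhds_unique this (hσ x')
  have hcm : ∀ k, Measurable (c k) := by
    intro k
    have h1 : Measurable (fun x => selN φ q (selA φ q x k) x) := by
      refine measurable_to_countable' fun n => ?_
      have : (fun x => selN φ q (selA φ q x k) x) ⁻¹' {n} =
          ⋃ s : List ℕ, ({x | selA φ q x k = s} ∩ (selN φ q s) ⁻¹' {n}) := by
        ext x
        simp only [mem_preimage, mem_singleton_iff, mem_iUnion, mem_inter_iff, mem_ofPred_eq]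
        constructor
        · intro h; exact ⟨_, rfl, h⟩
        · rintro ⟨s, h1, h2⟩; rw [h1]; exact h2
      rw [this]
      refine MeasurableSet.iUnion fun s => ?_
      exact (selA_meas φ q hsat k s).inter ((selN_meas φ q hsat s) (measurableSet_singleton n))
    exact (measurable_from_nat).comp h1
  have hσm : Measurable σ := by
    refine measurable_of_tendsto_metrizable hcm ?_
    rw [tendsto_pi_nhds]
    exact hσ
  have hT : MeasurableSet {x | σ x = x} := measurableSet_eq_fun hσm measurable_id
  have himg : φ '' {x | σ x = x} = range φ := by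
    apply Subset.antisymm
    · rintro _ ⟨x, -, rfl⟩; exact ⟨x, rfl⟩
    · rintro _ ⟨x, rfl⟩
      exact ⟨σ x, hσc _ _ (hσφ x), hσφ x⟩
  rw [← himg]
  refine hT.image_of_continuousOn_injOn hφ.continuousOn ?_
  intro x hx x' hx' h
  have h1 := hσc x x' h
  rw [← show σ x = x from hx, ← show σ x' = x' from hx']
  exact h1

end

end Pool.Agent.H410R3.DG
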