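import Mathlib
import Pool.Agent.H410R3.DG.Sel

/-!
# The Polish space of homeomorphisms of a compact space, conjugacy classes are Borel
-/

open Set Filter Topology MeasureTheory TopologicalSpace

namespace Pool.Agent.H410R3.DG

theorem polish_of_compact (M : Type*) [TopologicalSpace M] [CompactSpace M] [T2Space M]
    [SecondCountableTopology M] : PolishSpace M := by
  let _ := TopologicalSpace.metrizableSpaceMetric M
  infer_instance

theorem polish_CM (α β : Type*) [TopologicalSpace α] [CompactSpace α] [T2Space α]
    [SecondCountableTopology α] [TopologicalSpace β] [PolishSpace β] : PolishSpace C(α, β) := by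
  let _ := upgradeIsCompletelyMetrizable β
  infer_instance

section

variable (M : Type*) [TopologicalSpace M]

/-- Homeomorphisms, as pairs of mutually inverse continuous maps. -/
def HomeoP : Type _ :=
  {p : C(M, M) × C(M, M) // p.1.comp p.2 = ContinuousMap.id M ∧ p.2.comp p.1 = ContinuousMap.id M}

instance : TopologicalSpace (HomeoP M) := instTopologicalSpaceSubtype

theorem polish_HomeoP [CompactSpace M] [T2Space M] [SecondCountableTopology M] :
    PolishSpace (HomeoP M) := by
  have := polish_of_compact M
  have := polish_CM M M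
  have hcl : IsClosed {p : C(M, M) × C(M, M) | p.1.comp p.2 = ContinuousMap.id M ∧
      p.2.comp p.1 = ContinuousMap.id M} := by
    have h1 : Continuous (fun p : C(M, M) × C(M, M) => p.1.comp p.2) :=
      ContinuousMap.continuous_comp' |>.comp (continuous_snd.prodMk continuous_fst)
    have h2 : Continuous (fun p : C(M, M) × C(M, M) => p.2.comp p.1) :=
      ContinuousMap.continuous_comp' |>.comp (continuous_fst.prodMk continuous_snd)
    exact (isClosed_eq h1 continuous_const).inter (isClosed_eq h2 continuous_const)
  exact hcl.polishSpace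

variable {M}

/-- inverse -/
def HomeoP.toHomeo (h : HomeoP M) : M ≃ₜ M where
  toFun := h.1.1
  invFun := h.1.2
  left_inv x := by
    have := DFunLike.congr_fun h.2.2 x
    exact this
  right_inv x := by
    have := DFunLike.congr_fun h.2.1 x
    exact this
  continuous_toFun := h.1.1.continuous
  continuous_invFun := h.1.2.continuous

/-- a homeomorphism as an element of `HomeoP`. -/
def HomeoP.of (h : M ≃ₜ M) : HomeoP M :=
  ⟨(⟨h, h.continuous⟩, ⟨h.symm, h.symm.continuous⟩), by
    constructor
    · ext x; simp
    · ext x; simp⟩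

theorem HomeoP.inv_right (h : HomeoP M) (x : M) : h.1.1 (h.1.2 x) = x :=
  DFunLike.congr_fun h.2.1 x

theorem HomeoP.inv_left (h : HomeoP M) (x : M) : h.1.2 (h.1.1 x) = x :=
  DFunLike.congr_fun h.2.2 x

/-- composition -/
def HomeoP.mul (h z : HomeoP M) : HomeoP M :=
  ⟨(h.1.1.comp z.1.1, z.1.2.comp h.1.2), by
    constructor
    · ext x
      simp [HomeoP.inv_right]
    · ext x
      simp [HomeoP.inv_left]⟩

theorem HomeoP.continuous_mul [CompactSpace M] [T2Space M] :
    Continuous (fun p : HomeoP M × HomeoP M => p.1.mul p.2) := by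
  refine Continuous.subtype_mk ?_ _
  refine Continuous.prodMk ?_ ?_
  · exact ContinuousMap.continuous_comp'.comp
      ((continuous_fst.comp (continuous_subtype_val.comp continuous_snd)).prodMk
        (continuous_fst.comp (continuous_subtype_val.comp continuous_fst)))
  · exact ContinuousMap.continuous_comp'.comp
      ((continuous_snd.comp (continuous_subtype_val.comp continuous_fst)).prodMk
        (continuous_snd.comp (continuous_subtype_val.comp continuous_snd)))

/-- inverse in `HomeoP` -/
def HomeoP.inv (h : HomeoP M) : HomeoP M := ⟨(h.1.2, h.1.1), h.2.2, h.2.1⟩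

theorem HomeoP.ext' {h z : HomeoP M} (e : ∀ x, h.1.1 x = z.1.1 x) : h = z := by
  apply Subtype.ext
  apply Prod.ext
  · ext x; exact e x
  · ext x
    have h1 : h.1.1 (h.1.2 x) = h.1.1 (z.1.2 x) := by
      rw [h.inv_right, e, z.inv_right]
    have h2 := congrArg h.1.2 h1
    rwa [h.inv_left, h.inv_left] at h2

/-- Conjugation map -/
def conjMap (g : C(M, M)) (h : HomeoP M) : C(M, M) := (h.1.1.comp g).comp h.1.2

theorem continuous_conjMap [CompactSpace M] [T2Space M] (g : C(M, M)) :
    Continuous (conjMap g) := by
  unfold conjMap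
  have h1 : Continuous (fun h : HomeoP M => h.1.1.comp g) :=
    (ContinuousMap.continuous_precomp g).comp (continuous_fst.comp continuous_subtype_val)
  exact ContinuousMap.continuous_comp'.comp
    ((continuous_snd.comp continuous_subtype_val).prodMk h1)

theorem conj_class_borel [CompactSpace M] [T2Space M] [SecondCountableTopology M]
    (g : C(M, M)) :
    MeasurableSet[borel C(M, M)] {f : C(M, M) | ∃ h : M ≃ₜ M, ∀ x, h (g x) = f (h x)} := by
  have := polish_of_compact M
  have := polish_CM M M
  have := polish_HomeoP M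
  let _ : MeasurableSpace C(M, M) := borel _
  have _ : BorelSpace C(M, M) := ⟨rfl⟩
  have key : {f : C(M, M) | ∃ h : M ≃ₜ M, ∀ x, h (g x) = f (h x)} = range (conjMap g) := by
    ext f
    constructor
    · rintro ⟨h, hh⟩
      refine ⟨HomeoP.of h, ?_⟩
      ext x
      show h (g (h.symm x)) = f x
      rw [hh]; simp
    · rintro ⟨h, rfl⟩
      refine ⟨h.toHomeo, fun x => ?_⟩
      show h.1.1 (g x) = h.1.1 (g (h.1.2 (h.1.1 x)))
      rw [h.inv_left]
  rw [key]
  refine range_borel _ (continuous_conjMap g) fun U hU => ?_
  have e : conjMap g ⁻¹' (conjMap g '' U) =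
      ⋃ z ∈ {z : HomeoP M | ∀ x, z.1.1 (g x) = g (z.1.1 x)}, {h : HomeoP M | h.mul z ∈ U} := by
    ext h
    simp only [mem_preimage, mem_image, mem_iUnion, mem_ofPred_eq, exists_prop]
    constructor
    · rintro ⟨u, hu, huh⟩
      refine ⟨h.inv.mul u, ?_, ?_⟩
      · intro x
        show h.1.2 (u.1.1 (g x)) = g (h.1.2 (u.1.1 x))
        have h1 : u.1.1 (g (u.1.2 (u.1.1 x))) = h.1.1 (g (h.1.2 (u.1.1 x))) :=
          DFunLike.congr_fun huh (u.1.1 x)
        rw [u.inv_left] at h1
        rw [h1, h.inv_left]
      · have : h.mul (h.inv.mul u) = u := by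
          refine HomeoP.ext' fun x => ?_
          show h.1.1 (h.1.2 (u.1.1 x)) = u.1.1 x
          rw [h.inv_right]
        rw [this]; exact hu
    · rintro ⟨z, hz, hzU⟩
      refine ⟨_, hzU, ?_⟩
      ext x
      show h.1.1 (z.1.1 (g (z.1.2 (h.1.2 x)))) = h.1.1 (g (h.1.2 x))
      rw [hz, z.inv_right]
  rw [e]
  have ho : IsOpen (⋃ z ∈ {z : HomeoP M | ∀ x, z.1.1 (g x) = g (z.1.1 x)},
      {h : HomeoP M | h.mul z ∈ U}) := by
    refine isOpen_biUnion fun z _ => ?_
    exact hU.preimage (HomeoP.continuous_mul.comp (continuous_id.prodMk continuous_const))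
  exact MeasurableSpace.measurableSet_generateFrom ho

end

end Pool.Agent.H410R3.DG
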