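import Mathlib
import Pool.Agent.H410R3.DG.Emb
import Pool.Agent.H410R3.DG.Homeo

/-!
# The `C^r` topology is induced by a map to a separable metrizable space
-/

open Set Filter Topology
open scoped Manifold ContDiff

namespace Pool.Agent.H410R3.DG

open Pool.Agent.H410R3.KS

set_option linter.unusedSectionVars false

section FD

variable (E F : Type*) [NormedAddCommGroup E] [NormedSpace ℝ E] [FiniteDimensional ℝ E]
  [NormedAddCommGroup F] [NormedSpace ℝ F] [FiniteDimensional ℝ F]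

theorem fd_multilinear (j : ℕ) :
    FiniteDimensional ℝ (ContinuousMultilinearMap ℝ (fun _ : Fin j => E) F) := by
  have h : FiniteDimensional ℝ (MultilinearMap ℝ (fun _ : Fin j => E) F) := inferInstance
  exact FiniteDimensional.of_injective
    (ContinuousMultilinearMap.toMultilinearMapLinear
      (R' := ℝ) (A := ℝ) (M₁ := fun _ : Fin j => E) (M₂ := F))
    ContinuousMultilinearMap.toMultilinearMap_injective

end FD

variable {E : Type} [NormedAddCommGroup E] [NormedSpace ℝ E] [FiniteDimensional ℝ E]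
  {M : Type} [TopologicalSpace M] [ChartedSpace E M]

variable (E) in
/-- `C^r` self-maps -/
noncomputable def CR (M : Type) [TopologicalSpace M] [ChartedSpace E M] (r : ℕ∞) : Type :=
  {g : M → M // ContMDiff 𝓘(ℝ, E) 𝓘(ℝ, E) r g}

/-- inclusion -/
noncomputable def toCR {r : ℕ∞} (f : DiffR 𝓘(ℝ, E) M r) : CR E M r := ⟨f.map, DiffR.contMDiff' f⟩

section

variable {V : Type} [NormedAddCommGroup V] [NormedSpace ℝ V]
  (r : ℕ∞) (ρ : M → ℝ) (t : Finset M)

variable (E V) in
/-- The space of jets. -/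
abbrev QSpace : Type :=
  C(M, M) × (∀ (c : t) (j : {j : ℕ // (j : ℕ∞) ≤ r}),
    C(Metric.closedBall ((chartAt E (c : M)) (c : M)) (ρ c),
      ContinuousMultilinearMap ℝ (fun _ : Fin (j : ℕ) => E) V))

theorem contDiffOn_eRep {r : ℕ∞} [IsManifold 𝓘(ℝ, E) ∞ M] {e : M → V}
    (he : ContMDiff 𝓘(ℝ, E) 𝓘(ℝ, V) ∞ e) {g : M → M} (hg : ContMDiff 𝓘(ℝ, E) 𝓘(ℝ, E) r g) (c : M) :
    ContDiffOn ℝ r (fun w => e (g ((chartAt E c).symm w))) (chartAt E c).target := by
  have _ : IsManifold 𝓘(ℝ, E) r M := IsManifold.of_le (n := ∞) (by exact_mod_cast le_top)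
  have h3 : ContMDiffOn 𝓘(ℝ, E) 𝓘(ℝ, E) r (extChartAt 𝓘(ℝ, E) c).symm
      (extChartAt 𝓘(ℝ, E) c).target := contMDiffOn_extChartAt_symm c
  have he' : ContMDiff 𝓘(ℝ, E) 𝓘(ℝ, V) r e := he.of_le (by exact_mod_cast le_top)
  have h4 : ContMDiffOn 𝓘(ℝ, E) 𝓘(ℝ, V) r (fun v => e (g ((extChartAt 𝓘(ℝ, E) c).symm v)))
      (extChartAt 𝓘(ℝ, E) c).target := (he'.comp hg).comp_contMDiffOn h3
  rw [contMDiffOn_iff_contDiffOn] at h4
  simpa only [mfld_simps] using h4

theorem continuousOn_iter {r : ℕ∞} {V : Type*} [NormedAddCommGroup V] [NormedSpace ℝ V] {u : E → V}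
    {Ω : Set E} (hΩ : IsOpen Ω) (hu : ContDiffOn ℝ r u Ω) {j : ℕ} (hj : (j : ℕ∞) ≤ r) :
    ContinuousOn (fun w => iteratedFDeriv ℝ j u w) Ω := by
  have hjr : ((j : ℕ) : WithTop ℕ∞) ≤ (r : WithTop ℕ∞) := by exact_mod_cast hj
  have h2 := hu.continuousOn_iteratedFDerivWithin hjr hΩ.uniqueDiffOn
  exact h2.congr fun w hw => (iteratedFDerivWithin_of_isOpen j hΩ hw).symm

variable [IsManifold 𝓘(ℝ, E) ∞ M] {r ρ} {e : M → V}

/-- The jet map. -/
noncomputable def JMap (he : ContMDiff 𝓘(ℝ, E) 𝓘(ℝ, V) ∞ e)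
    (hρ : ∀ z, 0 < ρ z ∧ Metric.closedBall ((chartAt E z) z) (ρ z) ⊆ (chartAt E z).target)
    (g : CR E M r) : QSpace E V r ρ t :=
  (⟨g.1, g.2.continuous⟩, fun c j =>
    ⟨fun w => iteratedFDeriv ℝ (j : ℕ) (fun w => e (g.1 ((chartAt E (c : M)).symm w))) w, by
      have h := continuousOn_iter (chartAt E (c : M)).open_target (contDiffOn_eRep he g.2 (c : M)) j.2
      exact (h.mono (hρ c).2).domRestrict⟩)

variable (he : ContMDiff 𝓘(ℝ, E) 𝓘(ℝ, V) ∞ e)
    (hρ : ∀ z, 0 < ρ z ∧ Metric.closedBall ((chartAt E z) z) (ρ z) ⊆ (chartAt E z).target)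

theorem cr_le_J [CompactSpace M] [T2Space M] (r : ℕ∞) (t : Finset M) :
    crTopology 𝓘(ℝ, E) M r ≤ TopologicalSpace.induced
      (fun f : DiffR 𝓘(ℝ, E) M r => JMap t he hρ (toCR f)) inferInstance := by
  let _ := crTopology 𝓘(ℝ, E) M r
  rw [← continuous_iff_le_induced]
  have hev := continuous_eval_of_le (E := E) (M := M) (r := r) le_rfl
  have hj := jetM_of_le (E := E) (M := M) (r := r) le_rfl
  refine Continuous.prodMk ?_ ?_
  · exact ContinuousMap.continuous_of_continuous_uncurry _ hev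
  · refine continuous_pi fun c => continuous_pi fun j => ?_
    refine ContinuousMap.continuous_of_continuous_uncurry _ ?_
    rw [continuous_iff_continuousAt]
    rintro ⟨f, w⟩
    have hw : (w : E) ∈ (chartAt E (c : M)).target := (hρ c).2 w.2
    have h1 := (jetE_of_jetM hev hj he c f w hw).2 j j.2
    have h2 : ContinuousAt (fun q : DiffR 𝓘(ℝ, E) M r ×
        Metric.closedBall ((chartAt E (c : M)) (c : M)) (ρ c) => (q.1, (q.2 : E))) (f, w) := by
      fun_prop
    exact ContinuousAt.comp (f := fun q : DiffR 𝓘(ℝ, E) M r ×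
        Metric.closedBall ((chartAt E (c : M)) (c : M)) (ρ c) => (q.1, (q.2 : E)))
      (g := fun q : DiffR 𝓘(ℝ, E) M r × E => iteratedFDeriv ℝ (j : ℕ)
        (fun w => e (q.1.map ((chartAt E (c : M)).symm w))) q.2) h1 h2

theorem J_le_cr [CompactSpace M] [T2Space M] (hle : LocLeft E e)
    (ht : ∀ z, ∃ c ∈ t, z ∈ (chartAt E c).source ∧ (chartAt E c) z ∈
        Metric.ball ((chartAt E c) c) (ρ c)) :
    TopologicalSpace.induced
      (fun f : DiffR 𝓘(ℝ, E) M r => JMap t he hρ (toCR f)) inferInstance ≤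
      crTopology 𝓘(ℝ, E) M r := by
  have _ : LocallyCompactSpace M := ChartedSpace.locallyCompactSpace E M
  let _ := TopologicalSpace.induced
      (fun f : DiffR 𝓘(ℝ, E) M r => JMap t he hρ (toCR f)) inferInstance
  have hJ : Continuous (fun f : DiffR 𝓘(ℝ, E) M r => JMap t he hρ (toCR f)) :=
    continuous_induced_dom
  have hev : Continuous (fun q : DiffR 𝓘(ℝ, E) M r × M => q.1.map q.2) := by
    have h1 : Continuous (fun q : DiffR 𝓘(ℝ, E) M r × M =>
        ((JMap t he hρ (toCR q.1)).1, q.2)) :=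
      ((continuous_fst.comp (hJ.comp continuous_fst)).prodMk continuous_snd)
    exact (continuous_eval (F := C(M, M)) (X := M) (Y := M)).comp h1
  refine le_of_jetM hev ?_
  refine jetM_of_jetE hev hle fun z => ?_
  obtain ⟨c, hct, hzc, hzb⟩ := ht z
  refine ⟨c, hzc, fun f => ⟨?_, fun j hj => ?_⟩⟩
  · have h1 : ∀ᶠ q : DiffR 𝓘(ℝ, E) M r × E in 𝓝 (f, (chartAt E c) z),
        q.2 ∈ (chartAt E c).target :=
      continuousAt_snd.eventually ((chartAt E c).open_target.mem_nhds
        ((chartAt E c).map_source hzc))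
    filter_upwards [h1] with q hq
    exact (contDiffOn_eRep he (DiffR.contMDiff' q.1) c).contDiffAt
      ((chartAt E c).open_target.mem_nhds hq)
  · let B := Metric.closedBall ((chartAt E (c : M)) (c : M)) (ρ c)
    have _ : CompactSpace B := isCompact_iff_compactSpace.1 (isCompact_closedBall _ _)
    have h1 : Continuous (fun q : DiffR 𝓘(ℝ, E) M r × B =>
        ((JMap t he hρ (toCR q.1)).2 ⟨c, hct⟩ ⟨j, hj⟩, q.2)) := by
      have h2 : Continuous (fun f : DiffR 𝓘(ℝ, E) M r =>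
        (JMap t he hρ (toCR f)).2 ⟨c, hct⟩ ⟨j, hj⟩) :=
        (continuous_apply (⟨j, hj⟩ : {j : ℕ // (j : ℕ∞) ≤ r})).comp
          ((continuous_apply (⟨c, hct⟩ : t)).comp (continuous_snd.comp hJ))
      exact (h2.comp continuous_fst).prodMk continuous_snd
    have h3 : Continuous (fun q : DiffR 𝓘(ℝ, E) M r × B =>
        iteratedFDeriv ℝ j (fun w => e (q.1.map ((chartAt E c).symm w))) (q.2 : E)) :=
      (continuous_eval (F := C(B, ContinuousMultilinearMap ℝ (fun _ : Fin (j : ℕ) => E) V))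
        (X := B) (Y := ContinuousMultilinearMap ℝ (fun _ : Fin (j : ℕ) => E) V)).comp h1
    have h4 : ContinuousOn (fun q : DiffR 𝓘(ℝ, E) M r × E =>
        iteratedFDeriv ℝ j (fun w => e (q.1.map ((chartAt E c).symm w))) q.2)
        (univ ×ˢ B) := by
      rw [continuousOn_iff_continuous_domRestrict]
      have h5 : Continuous (fun q : (univ ×ˢ B : Set (DiffR 𝓘(ℝ, E) M r × E)) =>
          ((q.1.1, ⟨q.1.2, q.2.2⟩) : DiffR 𝓘(ℝ, E) M r × B)) := by
        refine Continuous.prodMk (by fun_prop) ?_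
        exact Continuous.subtype_mk (by fun_prop) _
      exact h3.comp h5
    refine h4.continuousAt ?_
    refine prod_mem_nhds univ_mem ?_
    exact Filter.mem_of_superset (Metric.isOpen_ball.mem_nhds hzb) Metric.ball_subset_closedBall

end

theorem secondCountable_cr [IsManifold 𝓘(ℝ, E) ∞ M] [CompactSpace M] [T2Space M] (r : ℕ∞) :
    @SecondCountableTopology _ (crTopology 𝓘(ℝ, E) M r) := by
  obtain ⟨ι, hι, e, he, hle⟩ := exists_emb E M
  obtain ⟨ρ, t, hρ, ht⟩ := exists_cover E M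
  have e1 : crTopology 𝓘(ℝ, E) M r = TopologicalSpace.induced
      (fun f : DiffR 𝓘(ℝ, E) M r => JMap t he hρ (toCR f)) inferInstance :=
    le_antisymm (cr_le_J he hρ r t) (J_le_cr t he hρ hle ht)
  rw [e1]
  have _ : SecondCountableTopology M := ChartedSpace.secondCountable_of_sigmaCompact E M
  have _ : ∀ j : ℕ, FiniteDimensional ℝ
    (ContinuousMultilinearMap ℝ (fun _ : Fin j => E) (ι → E × ℝ)) := fun j =>
      fd_multilinear _ _ j
  have _ : LocallyCompactSpace M := ChartedSpace.locallyCompactSpace E M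
  have _ : ∀ j : ℕ, SecondCountableTopology
    (ContinuousMultilinearMap ℝ (fun _ : Fin j => E) (ι → E × ℝ)) := fun j => by
      have := FiniteDimensional.proper ℝ
        (ContinuousMultilinearMap ℝ (fun _ : Fin j => E) (ι → E × ℝ))
      infer_instance
  have _ : ∀ c : M, CompactSpace (Metric.closedBall ((chartAt E (c : M)) (c : M)) (ρ c)) :=
    fun c => isCompact_iff_compactSpace.1 (isCompact_closedBall _ _)
  exact TopologicalSpace.secondCountableTopology_induced _ _ _

end Pool.Agent.H410R3.DG
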