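import Mathlib
import Pool.Agent.H410R3.DG.JSpace

/-!
# The space of smooth self-maps is closed in the space of jets
-/

open Set Filter Topology
open scoped Manifold ContDiff

namespace Pool.Agent.H410R3.DG

open Pool.Agent.H410R3.KS

set_option linter.unusedSectionVars false

theorem limit_jets {E V : Type*} [NormedAddCommGroup E] [NormedSpace ℝ E]
    [NormedAddCommGroup V] [NormedSpace ℝ V] {Ω B : Set E} (hΩ : IsOpen Ω) (hB : IsOpen B)
    (hBΩ : B ⊆ Ω) {um : ℕ → E → V} (hu : ∀ m, ContDiffOn ℝ ∞ (um m) Ω) {u : E → V}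
    {p : E → FormalMultilinearSeries ℝ E V}
    (hlim : ∀ w ∈ B, Tendsto (fun m => um m w) atTop (𝓝 (u w)))
    (hp : ∀ j, TendstoUniformlyOn (fun m w => iteratedFDeriv ℝ j (um m) w) (fun w => p w j)
      atTop B) : HasFTaylorSeriesUpToOn ∞ u p B := by
  have hder : ∀ j : ℕ, ∀ x ∈ B, HasFDerivAt (fun w => p w j) (p x (j+1)).curryLeft x := by
    intro j x hx
    refine hasFDerivAt_of_tendstoUniformlyOn (l := atTop) hB
      (f := fun m w => iteratedFDeriv ℝ j (um m) w)
      (f' := fun m w => (iteratedFDeriv ℝ (j+1) (um m) w).curryLeft)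
      (g := fun w => p w j) (g' := fun w => (p w (j+1)).curryLeft) ?_ ?_ ?_ hx
    · have h1 : UniformContinuous (fun L : ContinuousMultilinearMap ℝ (fun _ : Fin (j+1) => E) V =>
          L.curryLeft) :=
        (continuousMultilinearCurryLeftEquiv ℝ (fun _ : Fin (j+1) => E) V).isometry.uniformContinuous
      exact h1.comp_tendstoUniformlyOn (hp (j+1))
    · intro m w hw
      have h2 := (hu m).ftaylorSeriesWithin hΩ.uniqueDiffOn
      have h3 := (h2.fderivWithin j (by exact_mod_cast ENat.natCast_lt_top j) w (hBΩ hw)).hasFDerivAt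
        (hΩ.mem_nhds (hBΩ hw))
      have e1 : (fun w => ftaylorSeriesWithin ℝ (um m) Ω w j) =ᶠ[𝓝 w]
          fun w => iteratedFDeriv ℝ j (um m) w := by
        filter_upwards [hΩ.mem_nhds (hBΩ hw)] with w' hw'
        exact iteratedFDerivWithin_of_isOpen j hΩ hw'
      have e2 : ftaylorSeriesWithin ℝ (um m) Ω w (j+1) = iteratedFDeriv ℝ (j+1) (um m) w :=
        iteratedFDerivWithin_of_isOpen (j+1) hΩ (hBΩ hw)
      have h4 := h3.congr_of_eventuallyEq e1.symm
      rw [show ftaylorSeriesWithin ℝ (um m) Ω w j.succ = iteratedFDeriv ℝ (j+1) (um m) w from e2] at h4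
      exact h4
    · intro w hw
      exact (hp j).tendsto_at hw
  refine ⟨fun x hx => ?_, fun j _ x hx => (hder j x hx).hasFDerivWithinAt, fun j _ x hx =>
    (hder j x hx).continuousAt.continuousWithinAt⟩
  have h0 := (hp 0).tendsto_at hx
  have h1 : Continuous (fun L : ContinuousMultilinearMap ℝ (fun _ : Fin 0 => E) V => L.curry0) := by
    unfold ContinuousMultilinearMap.curry0
    fun_prop
  have h2 := (h1.tendsto _).comp h0
  have h3 : ((fun L : ContinuousMultilinearMap ℝ (fun _ : Fin 0 => E) V => L.curry0) ∘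
      fun m => iteratedFDeriv ℝ 0 (um m) x) = fun m => um m x := by
    funext m
    simp [ContinuousMultilinearMap.curry0, iteratedFDeriv_zero_apply]
  rw [h3] at h2
  exact tendsto_nhds_unique h2 (hlim x hx)

variable {E : Type} [NormedAddCommGroup E] [NormedSpace ℝ E] [FiniteDimensional ℝ E]
  {M : Type} [TopologicalSpace M] [ChartedSpace E M]

variable {V : Type} [NormedAddCommGroup V] [NormedSpace ℝ V] [FiniteDimensional ℝ V]
  (ρ : M → ℝ) (t : Finset M)

theorem polish_Q [CompactSpace M] [T2Space M] (r : ℕ∞) : PolishSpace (QSpace E V r ρ t) := by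
  have _ : SecondCountableTopology M := ChartedSpace.secondCountable_of_sigmaCompact E M
  have _ := polish_of_compact M
  have _ := polish_CM M M
  have _ : ∀ j : ℕ, FiniteDimensional ℝ
    (ContinuousMultilinearMap ℝ (fun _ : Fin j => E) V) := fun j => fd_multilinear _ _ j
  have _ : ∀ j : ℕ, PolishSpace
    (ContinuousMultilinearMap ℝ (fun _ : Fin j => E) V) := fun j => by
      have := FiniteDimensional.proper ℝ (ContinuousMultilinearMap ℝ (fun _ : Fin j => E) V)
      infer_instance
  have _ : ∀ c : M, CompactSpace (Metric.closedBall ((chartAt E (c : M)) (c : M)) (ρ c)) :=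
    fun c => isCompact_iff_compactSpace.1 (isCompact_closedBall _ _)
  have _ : ∀ (c : t) (j : {j : ℕ // (j : ℕ∞) ≤ r}),
    PolishSpace C(Metric.closedBall ((chartAt E (c : M)) (c : M)) (ρ c),
      ContinuousMultilinearMap ℝ (fun _ : Fin (j : ℕ) => E) V) := fun c j => polish_CM _ _
  infer_instance

variable [IsManifold 𝓘(ℝ, E) ∞ M] {ρ} {e : M → V}

theorem contMDiff_of_eRep [CompactSpace M] [T2Space M] (hle : LocLeft E e)
    (ht : ∀ z, ∃ c ∈ t, z ∈ (chartAt E c).source ∧ (chartAt E c) z ∈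
        Metric.ball ((chartAt E c) c) (ρ c)) {F : M → M} (hF : Continuous F)
    (hu : ∀ c ∈ t, ContDiffOn ℝ ∞ (fun w => e (F ((chartAt E c).symm w)))
      (Metric.ball ((chartAt E c) c) (ρ c))) :
    ContMDiff 𝓘(ℝ, E) 𝓘(ℝ, E) ∞ F := by
  intro z
  obtain ⟨c, hct, hzc, hzb⟩ := ht z
  obtain ⟨A, Ω, hΩ, hyΩ, hA, hAe⟩ := hle (F z) (F z) (mem_chart_source E _)
  rw [contMDiffAt_iff_of_mem_source (x := c) (y := F z) hzc (mem_chart_source E _)]
  refine ⟨hF.continuousAt, ?_⟩
  have h1 := (hu c hct).contDiffAt (Metric.isOpen_ball.mem_nhds hzb)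
  have h2 : ContDiffAt ℝ ∞ A (e (F ((chartAt E c).symm ((chartAt E c) z)))) := by
    rw [(chartAt E c).left_inv hzc]
    exact hA.contDiffAt (hΩ.mem_nhds hyΩ)
  have h3 := ContDiffAt.comp (f := (fun w => e (F ((chartAt E c).symm w)))) ((chartAt E c) z) h2 h1
  have h4 : (extChartAt 𝓘(ℝ, E) (F z) ∘ F ∘ (extChartAt 𝓘(ℝ, E) c).symm) =ᶠ[𝓝 ((chartAt E c) z)]
      A ∘ (fun w => e (F ((chartAt E c).symm w))) := by
    have h5 : ContinuousAt (fun w => F ((chartAt E c).symm w)) ((chartAt E c) z) :=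
      hF.continuousAt.comp ((chartAt E c).continuousAt_symm ((chartAt E c).map_source hzc))
    have h6 : Tendsto (fun w => F ((chartAt E c).symm w)) (𝓝 ((chartAt E c) z)) (𝓝 (F z)) := by
      have := h5.tendsto
      rwa [(chartAt E c).left_inv hzc] at this
    filter_upwards [h6.eventually hAe] with w hw
    simp only [Function.comp, mfld_simps]
    exact hw.symm
  have h7 := (h3.congr_of_eventuallyEq h4).contDiffWithinAt (s := range 𝓘(ℝ, E))
  simpa only [mfld_simps] using h7

theorem isClosed_range_J [CompactSpace M] [T2Space M]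
    (he : ContMDiff 𝓘(ℝ, E) 𝓘(ℝ, V) ∞ e)
    (hρ : ∀ z, 0 < ρ z ∧ Metric.closedBall ((chartAt E z) z) (ρ z) ⊆ (chartAt E z).target)
    (hle : LocLeft E e)
    (ht : ∀ z, ∃ c ∈ t, z ∈ (chartAt E c).source ∧ (chartAt E c) z ∈
        Metric.ball ((chartAt E c) c) (ρ c)) :
    IsClosed (range (fun g : CR E M ⊤ => JMap t he hρ g)) := by
  have _ := polish_Q (E := E) (V := V) ρ t ⊤
  refine IsSeqClosed.isClosed ?_
  intro x q hx hq
  choose g hg using hx
  have hg' : ∀ n, x n = JMap t he hρ (g n) := fun n => (hg n).symm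
  have hq' : Tendsto (fun n => JMap t he hρ (g n)) atTop (𝓝 q) := by
    have : x = fun n => JMap t he hρ (g n) := funext hg'
    rwa [this] at hq
  set F : C(M, M) := q.1 with hFdef
  have hF1 : Tendsto (fun n => (JMap t he hρ (g n)).1) atTop (𝓝 F) :=
    (continuous_fst.tendsto q).comp hq'
  have hFpt : ∀ z, Tendsto (fun n => (g n).1 z) atTop (𝓝 (F z)) := by
    intro z
    exact ((continuous_eval_const (F := C(M, M)) z).tendsto F).comp hF1
  -- the jets
  let p : (c : t) → E → FormalMultilinearSeries ℝ E V := fun c w j =>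
    open Classical in
    if h : w ∈ Metric.closedBall ((chartAt E (c : M)) (c : M)) (ρ c) then
      q.2 c ⟨j, le_top⟩ ⟨w, h⟩ else 0
  have hpcont : ∀ (c : t) (j : ℕ), ContinuousOn (fun w => p c w j)
      (Metric.closedBall ((chartAt E (c : M)) (c : M)) (ρ c)) := by
    intro c j
    rw [continuousOn_iff_continuous_domRestrict]
    have : (Metric.closedBall ((chartAt E (c : M)) (c : M)) (ρ c)).domRestrict (fun w => p c w j) =
        fun w => q.2 c ⟨j, le_top⟩ w := by
      funext w
      simp only [domRestrict_apply, p]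
      rw [dif_pos w.2]
    rw [this]
    exact (q.2 c ⟨j, le_top⟩).continuous
  have huni : ∀ (c : t) (j : ℕ), TendstoUniformlyOn
      (fun n w => iteratedFDeriv ℝ j (fun w => e ((g n).1 ((chartAt E (c : M)).symm w))) w)
      (fun w => p c w j) atTop (Metric.closedBall ((chartAt E (c : M)) (c : M)) (ρ c)) := by
    intro c j
    have _ : CompactSpace (Metric.closedBall ((chartAt E (c : M)) (c : M)) (ρ c)) :=
      isCompact_iff_compactSpace.1 (isCompact_closedBall _ _)
    have h1 : Tendsto (fun n => (JMap t he hρ (g n)).2 c ⟨j, le_top⟩) atTop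
        (𝓝 (q.2 c ⟨j, le_top⟩)) := by
      have h2 : Continuous (fun q : QSpace E V ⊤ ρ t => q.2 c ⟨j, le_top⟩) :=
        (continuous_apply (⟨j, le_top⟩ : {j : ℕ // (j : ℕ∞) ≤ ⊤})).comp
          ((continuous_apply c).comp continuous_snd)
      exact (h2.tendsto q).comp hq'
    rw [ContinuousMap.tendsto_iff_tendstoUniformly] at h1
    rw [tendstoUniformlyOn_iff_tendstoUniformly_comp_coe]
    have e1 : (fun w => p c w j) ∘ ((↑) : Metric.closedBall ((chartAt E (c : M)) (c : M)) (ρ c) → E)
        = fun w => q.2 c ⟨j, le_top⟩ w := by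
      funext w
      simp only [Function.comp, p]
      rw [dif_pos w.2]
    rw [e1]
    exact h1
  have hum : ∀ (c : M) n, ContDiffOn ℝ ∞ (fun w => e ((g n).1 ((chartAt E (c : M)).symm w)))
      (chartAt E (c : M)).target := fun c n => contDiffOn_eRep he (g n).2 c
  have hball : ∀ c : M, Metric.ball ((chartAt E (c : M)) (c : M)) (ρ c) ⊆
      (chartAt E (c : M)).target := fun c => Metric.ball_subset_closedBall.trans (hρ c).2
  have hT : ∀ c : t, HasFTaylorSeriesUpToOn ∞ (fun w => e (F ((chartAt E (c : M)).symm w))) (p c)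
      (Metric.ball ((chartAt E (c : M)) (c : M)) (ρ c)) := by
    intro c
    refine limit_jets (chartAt E (c : M)).open_target Metric.isOpen_ball (hball c)
      (hum c) ?_ ?_
    · intro w _
      exact (he.continuous.tendsto _).comp (hFpt _)
    · intro j
      exact (huni c j).mono Metric.ball_subset_closedBall
  have hsm : ContMDiff 𝓘(ℝ, E) 𝓘(ℝ, E) ∞ F := by
    refine contMDiff_of_eRep t hle ht F.continuous fun c hc => ?_
    exact (hT ⟨c, hc⟩).contDiffOn
  refine ⟨⟨F, hsm⟩, ?_⟩
  refine Prod.ext rfl ?_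
  funext c j
  ext1 w
  have h1 := contDiffOn_eRep he (show ContMDiff 𝓘(ℝ, E) 𝓘(ℝ, E) ((⊤ : ℕ∞) : WithTop ℕ∞) F from hsm) (c : M)
  have h2 := (continuousOn_iter (chartAt E (c : M)).open_target h1 (j := j) le_top).mono (hρ c).2
  have h3 : EqOn (fun w => iteratedFDeriv ℝ (j : ℕ) (fun w => e (F ((chartAt E (c : M)).symm w))) w)
      (fun w => p c w j) (Metric.ball ((chartAt E (c : M)) (c : M)) (ρ c)) := by
    intro w' hw'
    have h4 := (hT c).eq_iteratedFDerivWithin_of_uniqueDiffOn (m := (j : ℕ))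
      (by exact_mod_cast le_top) Metric.isOpen_ball.uniqueDiffOn hw'
    rw [iteratedFDerivWithin_of_isOpen _ Metric.isOpen_ball hw'] at h4
    exact h4.symm
  have h5 := h3.of_subset_closure h2 (hpcont c j) Metric.ball_subset_closedBall
    (by rw [closure_ball _ (hρ c).1.ne'])
  have h6 := h5 w.2
  show iteratedFDeriv ℝ (j : ℕ) (fun w => e (F ((chartAt E (c : M)).symm w))) (w : E) = q.2 c j w
  rw [show iteratedFDeriv ℝ (j : ℕ) (fun w => e (F ((chartAt E (c : M)).symm w))) (w : E) =
    p c w j from h6]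
  simp only [p]
  rw [dif_pos w.2]

end Pool.Agent.H410R3.DG
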