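import Mathlib
import Pool.Agent.H410R3.DG.Closed

/-!
# The group of smooth diffeomorphisms is Polish
-/

open Set Filter Topology
open scoped Manifold ContDiff

namespace Pool.Agent.H410R3.DG

open Pool.Agent.H410R3.KS

set_option linter.unusedSectionVars false

theorem isOpen_forall_compact {Q K Z : Type*} [TopologicalSpace Q] [TopologicalSpace K]
    [TopologicalSpace Z] {C : Set K} (hC : IsCompact C) {φ : Q × K → Z} (hφ : Continuous φ)
    {U : Set Z} (hU : IsOpen U) : IsOpen {q : Q | ∀ k ∈ C, φ (q, k) ∈ U} := by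
  rw [isOpen_iff_mem_nhds]
  intro q hq
  refine hC.eventually_forall_of_forall_eventually (P := fun q k => φ (q, k) ∈ U) fun k hk => ?_
  exact hφ.continuousAt.eventually (hU.mem_nhds (hq k hk))

theorem isGδ_injective (M : Type) [TopologicalSpace M] [CompactSpace M] [T2Space M]
    [SecondCountableTopology M] : IsGδ {F : C(M, M) | Function.Injective F} := by
  let _ := TopologicalSpace.metrizableSpaceMetric M
  let K : ℕ → Set (M × M) := fun n => {p | 1 / ((n : ℝ) + 1) ≤ dist p.1 p.2}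
  have hK : ∀ n, IsCompact (K n) := fun n =>
    (isClosed_le continuous_const (continuous_fst.dist continuous_snd)).isCompact
  have e : {F : C(M, M) | Function.Injective F} =
      ⋂ n, {F : C(M, M) | ∀ p ∈ K n, (F p.1, F p.2) ∈ (diagonal M)ᶜ} := by
    ext F
    simp only [mem_ofPred_eq, mem_iInter, mem_compl_iff, mem_diagonal_iff]
    constructor
    · intro hF n p hp h
      have h1 : p.1 = p.2 := hF h
      have h2 : 1 / ((n : ℝ) + 1) ≤ dist p.1 p.2 := hp
      rw [h1, dist_self] at h2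
      have : (0:ℝ) < 1 / ((n : ℝ) + 1) := by positivity
      linarith
    · intro h x y hxy
      by_contra hne
      obtain ⟨n, hn⟩ := exists_nat_one_div_lt (dist_pos.2 hne)
      exact h n (x, y) hn.le hxy
  rw [e]
  refine IsGδ.iInter_of_isOpen fun n => ?_
  refine isOpen_forall_compact (hK n) (φ := fun x : C(M, M) × (M × M) => (x.1 x.2.1, x.1 x.2.2))
    ?_ isClosed_diagonal.isOpen_compl
  fun_prop

theorem isClosed_surjective (M : Type) [TopologicalSpace M] [CompactSpace M] [T2Space M] :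
    IsClosed {F : C(M, M) | Function.Surjective F} := by
  rw [← isOpen_compl_iff]
  have e : {F : C(M, M) | Function.Surjective F}ᶜ =
      ⋃ y : M, {F : C(M, M) | ∀ x ∈ (univ : Set M), F x ∈ ({y}ᶜ : Set M)} := by
    ext F
    simp only [mem_compl_iff, mem_ofPred_eq, Function.Surjective, mem_iUnion, mem_univ,
      true_implies, mem_singleton_iff]
    push Not
    rfl
  rw [e]
  refine isOpen_iUnion fun y => ?_
  exact isOpen_forall_compact isCompact_univ (φ := fun x : C(M, M) × M => x.1 x.2)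
    (by fun_prop) isOpen_compl_singleton

variable {E : Type} [NormedAddCommGroup E] [NormedSpace ℝ E] [FiniteDimensional ℝ E]
  {M : Type} [TopologicalSpace M] [ChartedSpace E M]

variable {V : Type} [NormedAddCommGroup V] [NormedSpace ℝ V] [FiniteDimensional ℝ V]
  {ρ : M → ℝ} (t : Finset M)

variable (E V ρ) in
/-- the immersion condition -/
def ImmSet : Set (QSpace E V ⊤ ρ t) :=
  {q | ∀ (c : t) (w : Metric.closedBall ((chartAt E (c : M)) (c : M)) (ρ c)) (v : E), ‖v‖ = 1 →
    q.2 c ⟨1, le_top⟩ w (fun _ => v) ≠ 0}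

theorem isOpen_ImmSet [CompactSpace M] [T2Space M] : IsOpen (ImmSet E V ρ t) := by
  have e : ImmSet E V ρ t = ⋂ c : t, {q : QSpace E V ⊤ ρ t |
      ∀ k ∈ (univ : Set (Metric.closedBall ((chartAt E (c : M)) (c : M)) (ρ c))) ×ˢ
        Metric.sphere (0 : E) 1, q.2 c ⟨1, le_top⟩ k.1 (fun _ => k.2) ∈ ({0}ᶜ : Set V)} := by
    ext q
    simp only [ImmSet, mem_ofPred_eq, mem_iInter, mem_prod, mem_univ, true_and,
      mem_sphere_zero_iff_norm, Prod.forall, mem_compl_iff, mem_singleton_iff]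
  rw [e]
  refine isOpen_iInter_of_finite fun c => ?_
  have _ : CompactSpace (Metric.closedBall ((chartAt E (c : M)) (c : M)) (ρ c)) :=
    isCompact_iff_compactSpace.1 (isCompact_closedBall _ _)
  have hφ : Continuous (fun x : QSpace E V ⊤ ρ t ×
      (Metric.closedBall ((chartAt E (c : M)) (c : M)) (ρ c) × E) =>
        x.1.2 c ⟨1, le_top⟩ x.2.1 (fun _ => x.2.2)) := by
    have h1 : Continuous (fun x : QSpace E V ⊤ ρ t ×
      (Metric.closedBall ((chartAt E (c : M)) (c : M)) (ρ c) × E) =>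
        (x.1.2 c ⟨1, le_top⟩ : C(Metric.closedBall ((chartAt E (c : M)) (c : M)) (ρ c),
      ContinuousMultilinearMap ℝ (fun _ : Fin 1 => E) V))) :=
      (continuous_apply (⟨1, le_top⟩ : {j : ℕ // (j : ℕ∞) ≤ ⊤})).comp
          ((continuous_apply c).comp (continuous_snd.comp continuous_fst))
    have h2 : Continuous (fun x : QSpace E V ⊤ ρ t ×
      (Metric.closedBall ((chartAt E (c : M)) (c : M)) (ρ c) × E) =>
        x.1.2 c ⟨1, le_top⟩ x.2.1) := by
      exact (continuous_eval (F := C(Metric.closedBall ((chartAt E (c : M)) (c : M)) (ρ c),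
        ContinuousMultilinearMap ℝ (fun _ : Fin 1 => E) V))).comp
          (h1.prodMk (continuous_fst.comp continuous_snd))
    have h3 : Continuous (fun x : QSpace E V ⊤ ρ t ×
      (Metric.closedBall ((chartAt E (c : M)) (c : M)) (ρ c) × E) => (fun _ : Fin 1 => x.2.2)) := by
      fun_prop
    exact (continuous_eval (F := ContinuousMultilinearMap ℝ (fun _ : Fin 1 => E) V)).comp
      (h2.prodMk h3)
  exact isOpen_forall_compact (isCompact_univ.prod (isCompact_sphere _ _)) hφ
    isOpen_compl_singleton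

variable [IsManifold 𝓘(ℝ, E) ∞ M] {e : M → V}

/-- the inverse of a bijective smooth map with injective derivatives is smooth -/
theorem smooth_inverse [CompactSpace M] [T2Space M] (he : ContMDiff 𝓘(ℝ, E) 𝓘(ℝ, V) ∞ e)
    (ht : ∀ z, ∃ c ∈ t, z ∈ (chartAt E c).source ∧ (chartAt E c) z ∈
        Metric.ball ((chartAt E c) c) (ρ c))
    (hρ : ∀ z, 0 < ρ z ∧ Metric.closedBall ((chartAt E z) z) (ρ z) ⊆ (chartAt E z).target)
    {F G : M → M} (hF : ContMDiff 𝓘(ℝ, E) 𝓘(ℝ, E) ∞ F) (hG : Continuous G)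
    (hFG : ∀ x, F (G x) = x) (hGF : ∀ x, G (F x) = x)
    (himm : ∀ c ∈ t, ∀ w ∈ Metric.closedBall ((chartAt E (c : M)) (c : M)) (ρ c), ∀ v : E,
      ‖v‖ = 1 → iteratedFDeriv ℝ 1 (fun w => e (F ((chartAt E c).symm w))) w (fun _ => v) ≠ 0) :
    ContMDiff 𝓘(ℝ, E) 𝓘(ℝ, E) ∞ G := by
  intro y₀
  obtain ⟨c, hct, hzc, hzb⟩ := ht (G y₀)
  set z₀ := G y₀ with hz₀
  have hFz : F z₀ = y₀ := hFG y₀
  set a := (chartAt E c) z₀ with ha
  have hat : a ∈ (chartAt E c).target := (chartAt E c).map_source hzc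
  have hinv : (chartAt E c).symm a = z₀ := (chartAt E c).left_inv hzc
  have hdom : a ∈ {w | w ∈ (chartAt E c).target ∧
      F ((chartAt E c).symm w) ∈ (chartAt E y₀).source} := by
    refine ⟨hat, ?_⟩
    rw [hinv, hFz]; exact mem_chart_source E _
  set u := localRep 𝓘(ℝ, E) c y₀ F with hu
  have hF' : ContMDiff 𝓘(ℝ, E) 𝓘(ℝ, E) ((⊤ : ℕ∞) : WithTop ℕ∞) F := hF
  have hus : ContDiffAt ℝ ∞ u a := (contDiffOn_localRep c y₀ hF').contDiffAt
    ((isOpen_dom c y₀ hF.continuous).mem_nhds hdom)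
  have hua : u a = (chartAt E y₀) y₀ := by rw [hu, localRep_eq, hinv, hFz]
  -- injectivity of the derivative
  have hdu : DifferentiableAt ℝ u a := hus.differentiableAt (by simp)
  have hinj : Function.Injective (fderiv ℝ u a) := by
    rw [← ContinuousLinearMap.coe_coe, ← LinearMap.ker_eq_bot, LinearMap.ker_eq_bot']
    intro v hv
    by_contra hv0
    have hnv : ‖v‖ ≠ 0 := by rwa [norm_ne_zero_iff]
    set v' : E := (‖v‖⁻¹ : ℝ) • v with hv'
    have hv1 : ‖v'‖ = 1 := by
      rw [hv', norm_smul, norm_inv, norm_norm, inv_mul_cancel₀ hnv]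
    refine himm c hct a (Metric.ball_subset_closedBall hzb) v' hv1 ?_
    rw [iteratedFDeriv_one_apply]
    -- e ∘ F ∘ chart⁻¹ = (e ∘ ψ⁻¹) ∘ u near a
    have h1 : (fun w => e (F ((chartAt E c).symm w))) =ᶠ[𝓝 a]
        (fun w => e ((chartAt E y₀).symm w)) ∘ u := by
      filter_upwards [(isOpen_dom c y₀ hF.continuous).mem_nhds hdom] with w hw
      simp only [Function.comp, hu, localRep_eq]
      rw [(chartAt E y₀).left_inv hw.2]
    have h2 : DifferentiableAt ℝ (fun w => e ((chartAt E y₀).symm w)) (u a) := by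
      have h3 := contDiffOn_eRep (r := ⊤) he (g := id) contMDiff_id y₀
      have h4 : ContDiffAt ℝ ∞ (fun w => e ((chartAt E y₀).symm w)) (u a) := by
        refine h3.contDiffAt ((chartAt E y₀).open_target.mem_nhds ?_)
        rw [hua]
        exact (chartAt E y₀).map_source (mem_chart_source E _)
      exact h4.differentiableAt (by simp)
    rw [h1.fderiv_eq, fderiv_comp a h2 hdu]
    have h5 : fderiv ℝ u a v' = 0 := by
      rw [hv', map_smul]
      have : fderiv ℝ u a v = 0 := hv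
      rw [this, smul_zero]
    simp [h5]
  -- local inverse
  let L : E ≃L[ℝ] E :=
    (LinearEquiv.ofInjectiveEndo (fderiv ℝ u a : E →ₗ[ℝ] E) hinj).toContinuousLinearEquiv
  have hL : (L : E →L[ℝ] E) = fderiv ℝ u a := by
    ext v
    rfl
  have hud : HasFDerivAt u (L : E →L[ℝ] E) a := by
    rw [hL]; exact hdu.hasFDerivAt
  have hn : (∞ : WithTop ℕ∞) ≠ 0 := by simp
  have hstrict : HasStrictFDerivAt u (L : E →L[ℝ] E) a := hus.hasStrictFDerivAt' hud hn
  have hlinv : ContDiffAt ℝ ∞ (hus.localInverse hud hn) (u a) := hus.to_localInverse hud hn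
  rw [contMDiffAt_iff_of_mem_source (x := y₀) (y := c) (mem_chart_source E _) hzc]
  refine ⟨hG.continuousAt, ?_⟩
  have h6 : (extChartAt 𝓘(ℝ, E) c ∘ G ∘ (extChartAt 𝓘(ℝ, E) y₀).symm) =ᶠ[𝓝 (u a)]
      hus.localInverse hud hn := by
    have h7 : ∀ᶠ v in 𝓝 (u a), u (hus.localInverse hud hn v) = v :=
      hstrict.eventually_right_inverse
    have h8 : Tendsto (hus.localInverse hud hn) (𝓝 (u a)) (𝓝 a) := by
      have h9 := hlinv.continuousAt.tendsto
      have h10 : hus.localInverse hud hn (u a) = a := hus.localInverse_apply_image hud hn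
      rwa [h10] at h9
    have h11 := h8.eventually ((isOpen_dom c y₀ hF.continuous).mem_nhds hdom)
    filter_upwards [h7, h11] with v hv1 hv2
    simp only [Function.comp, mfld_simps]
    have h12 : (chartAt E y₀).symm v = F ((chartAt E c).symm (hus.localInverse hud hn v)) := by
      have h14 : (chartAt E y₀) (F ((chartAt E c).symm (hus.localInverse hud hn v))) = v := by
        rw [← localRep_eq c y₀ F]; exact hv1
      calc (chartAt E y₀).symm v = (chartAt E y₀).symm
            ((chartAt E y₀) (F ((chartAt E c).symm (hus.localInverse hud hn v)))) := by rw [h14]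
        _ = _ := (chartAt E y₀).left_inv hv2.2
    rw [h12, hGF, (chartAt E c).right_inv hv2.1]
  have h13 := (hlinv.congr_of_eventuallyEq h6).contDiffWithinAt (s := range 𝓘(ℝ, E))
  rw [hua] at h13
  simpa only [mfld_simps] using h13

/-- the derivative of a diffeomorphism, read through `e`, is injective -/
theorem imm_of_diffeo (he : ContMDiff 𝓘(ℝ, E) 𝓘(ℝ, V) ∞ e) (hle : LocLeft E e)
    {F G : M → M} (hF : ContMDiff 𝓘(ℝ, E) 𝓘(ℝ, E) ∞ F) (hG : ContMDiff 𝓘(ℝ, E) 𝓘(ℝ, E) ∞ G)
    (hGF : ∀ x, G (F x) = x) (c : M) (w : E) (hw : w ∈ (chartAt E c).target) (v : E)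
    (hv : ‖v‖ = 1) :
    iteratedFDeriv ℝ 1 (fun w => e (F ((chartAt E c).symm w))) w (fun _ => v) ≠ 0 := by
  intro h0
  rw [iteratedFDeriv_one_apply] at h0
  set y := F ((chartAt E c).symm w) with hy
  obtain ⟨A, Ω, hΩ, hyΩ, hA, hAe⟩ := hle y y (mem_chart_source E _)
  have hF' : ContMDiff 𝓘(ℝ, E) 𝓘(ℝ, E) ((⊤ : ℕ∞) : WithTop ℕ∞) F := hF
  have hG' : ContMDiff 𝓘(ℝ, E) 𝓘(ℝ, E) ((⊤ : ℕ∞) : WithTop ℕ∞) G := hG
  have h1 : DifferentiableAt ℝ (fun w => e (F ((chartAt E c).symm w))) w :=
    ((contDiffOn_eRep he hF' c).contDiffAt ((chartAt E c).open_target.mem_nhds hw)).differentiableAt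
      (by simp)
  have hAy : A (e y) = (chartAt E y) y := hAe.self_of_nhds
  have h2 : DifferentiableAt ℝ A (e (F ((chartAt E c).symm w))) :=
    (hA.contDiffAt (hΩ.mem_nhds hyΩ)).differentiableAt (by simp)
  have hGy : G y = (chartAt E c).symm w := hGF _
  have h3 : DifferentiableAt ℝ (localRep 𝓘(ℝ, E) y c G) (A (e (F ((chartAt E c).symm w)))) := by
    have h4 : A (e (F ((chartAt E c).symm w))) ∈ {w | w ∈ (chartAt E y).target ∧
        G ((chartAt E y).symm w) ∈ (chartAt E c).source} := by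
      show A (e y) ∈ _
      rw [hAy]
      refine ⟨(chartAt E y).map_source (mem_chart_source E _), ?_⟩
      rw [(chartAt E y).left_inv (mem_chart_source E _), hGy]
      exact (chartAt E c).map_target hw
    exact ((contDiffOn_localRep y c hG').contDiffAt
      ((isOpen_dom y c hG.continuous).mem_nhds h4)).differentiableAt (by simp)
  have h5 : (localRep 𝓘(ℝ, E) y c G) ∘ A ∘ (fun w => e (F ((chartAt E c).symm w))) =ᶠ[𝓝 w] id := by
    have h6 : ContinuousAt (fun w => F ((chartAt E c).symm w)) w :=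
      hF.continuous.continuousAt.comp ((chartAt E c).continuousAt_symm hw)
    have h7 : ∀ᶠ w' in 𝓝 w, A (e (F ((chartAt E c).symm w'))) =
        (chartAt E y) (F ((chartAt E c).symm w')) := h6.eventually hAe
    have h8 : ∀ᶠ w' in 𝓝 w, F ((chartAt E c).symm w') ∈ (chartAt E y).source :=
      h6.eventually ((chartAt E y).open_source.mem_nhds (mem_chart_source E _))
    filter_upwards [h7, h8, (chartAt E c).open_target.mem_nhds hw] with w' h9 h10 h11
    simp only [Function.comp, localRep_eq, h9, id]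
    rw [(chartAt E y).left_inv h10, hGF, (chartAt E c).right_inv h11]
  have h12 : fderiv ℝ ((localRep 𝓘(ℝ, E) y c G) ∘ A ∘
      (fun w => e (F ((chartAt E c).symm w)))) w v = v := by
    rw [h5.fderiv_eq]; simp
  rw [fderiv_comp w h3 (h2.comp w h1), fderiv_comp w h2 h1] at h12
  have h13 : v = 0 := by
    rw [← h12]
    simp only [ContinuousLinearMap.comp_apply, h0, map_zero]
  rw [h13, norm_zero] at hv
  exact zero_ne_one hv

theorem range_J_diffeo [CompactSpace M] [T2Space M]
    (he : ContMDiff 𝓘(ℝ, E) 𝓘(ℝ, V) ∞ e)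
    (hρ : ∀ z, 0 < ρ z ∧ Metric.closedBall ((chartAt E z) z) (ρ z) ⊆ (chartAt E z).target)
    (hle : LocLeft E e)
    (ht : ∀ z, ∃ c ∈ t, z ∈ (chartAt E c).source ∧ (chartAt E c) z ∈
        Metric.ball ((chartAt E c) c) (ρ c)) :
    range (fun f : DiffR 𝓘(ℝ, E) M ⊤ => JMap t he hρ (toCR f)) =
      range (fun g : CR E M ⊤ => JMap t he hρ g) ∩
        {q | Function.Injective q.1} ∩ {q | Function.Surjective q.1} ∩ ImmSet E V ρ t := by
  apply Subset.antisymm
  · rintro _ ⟨f, rfl⟩
    refine ⟨⟨⟨⟨toCR f, rfl⟩, ?_⟩, ?_⟩, ?_⟩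
    · exact (Diffeomorph.toEquiv f : M ≃ M).injective
    · exact (Diffeomorph.toEquiv f : M ≃ M).surjective
    · intro c w v hv
      exact imm_of_diffeo he hle (F := f.map) (G := f.inv) (Diffeomorph.contMDiff_toFun f)
        (Diffeomorph.contMDiff_invFun f)
        (fun x => (Diffeomorph.toEquiv f : M ≃ M).symm_apply_apply x) c w ((hρ c).2 w.2) v hv
  · rintro _ ⟨⟨⟨⟨g, rfl⟩, hinj⟩, hsurj⟩, himm⟩
    have hinj' : Function.Injective g.1 := hinj
    have hsurj' : Function.Surjective g.1 := hsurj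
    let eq : M ≃ M := Equiv.ofBijective g.1 ⟨hinj', hsurj'⟩
    have hGc : Continuous eq.symm := by
      have h1 : Continuous eq := g.2.continuous
      exact (h1.homeoOfEquivCompactToT2).symm.continuous
    have hG : ContMDiff 𝓘(ℝ, E) 𝓘(ℝ, E) ∞ eq.symm := by
      refine smooth_inverse t he ht hρ (F := g.1) g.2 hGc (fun x => eq.apply_symm_apply x)
        (fun x => eq.symm_apply_apply x) ?_
      intro c hc w hw v hv
      exact himm ⟨c, hc⟩ ⟨w, hw⟩ v hv
    exact ⟨⟨eq, g.2, hG⟩, rfl⟩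

end Pool.Agent.H410R3.DG
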