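import Mathlib
import Pool.Agent.H410R3.DG.DiffGd

/-!
# The group of smooth diffeomorphisms is Polish
-/

open Set Filter Topology
open scoped Manifold ContDiff

namespace Pool.Agent.H410R3.DG

open Pool.Agent.H410R3.KS

set_option linter.unusedSectionVars false

theorem polish_Gδ {X : Type*} [TopologicalSpace X] [PolishSpace X] {s : Set X} (hs : IsGδ s) :
    PolishSpace s := by
  obtain ⟨U, hU, rfl⟩ := isGδ_iff_eq_iInter_nat.1 hs
  let f : (⋂ n, U n : Set X) → ∀ n, U n := fun x n => ⟨x, mem_iInter.1 x.2 n⟩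
  have hf : Continuous f := continuous_pi fun n => Continuous.subtype_mk continuous_subtype_val _
  have hg : Continuous (fun p : ∀ n, U n => ((p 0 : U 0) : X)) :=
    continuous_subtype_val.comp (continuous_apply 0)
  have he : IsEmbedding f := IsEmbedding.of_comp hf hg IsEmbedding.subtypeVal
  have hr : range f = ⋂ n, {p : ∀ n, U n | (p n : X) = p 0} := by
    ext p
    simp only [mem_range, mem_iInter, mem_ofPred_eq]
    constructor
    · rintro ⟨x, rfl⟩ n; rfl
    · intro h
      refine ⟨⟨(p 0 : X), mem_iInter.2 fun n => ?_⟩, ?_⟩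
      · rw [← h n]; exact (p n).2
      · funext n
        exact Subtype.ext (h n).symm
  have hcl : IsClosed (range f) := by
    rw [hr]
    refine isClosed_iInter fun n => isClosed_eq ?_ ?_
    · exact continuous_subtype_val.comp (continuous_apply n)
    · exact hg
  have _ : ∀ n, PolishSpace (U n) := fun n => (hU n).polishSpace
  exact (IsClosedEmbedding.mk he hcl).polishSpace

theorem isGδ_of_closed {X : Type*} [TopologicalSpace X] [PolishSpace X] {s : Set X}
    (hs : IsClosed s) : IsGδ s := by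
  let _ := TopologicalSpace.upgradeIsCompletelyMetrizable X
  exact hs.isGδ

variable {E : Type} [NormedAddCommGroup E] [NormedSpace ℝ E] [FiniteDimensional ℝ E]
  {M : Type} [TopologicalSpace M] [ChartedSpace E M]

theorem polish_diff [IsManifold 𝓘(ℝ, E) ∞ M] [CompactSpace M] [T2Space M] :
    @PolishSpace (DiffR 𝓘(ℝ, E) M ⊤) (crTopology 𝓘(ℝ, E) M ⊤) := by
  obtain ⟨ι, hι, e, he, hle⟩ := exists_emb E M
  obtain ⟨ρ, t, hρ, ht⟩ := exists_cover E M
  have _ : SecondCountableTopology M := ChartedSpace.secondCountable_of_sigmaCompact E M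
  have hQ := polish_Q (E := E) (V := ι → E × ℝ) ρ t ⊤
  have e1 : crTopology 𝓘(ℝ, E) M ⊤ = TopologicalSpace.induced
      (fun f : DiffR 𝓘(ℝ, E) M ⊤ => JMap t he hρ (toCR f)) inferInstance :=
    le_antisymm (cr_le_J he hρ ⊤ t) (J_le_cr t he hρ hle ht)
  rw [e1]
  let _ : TopologicalSpace (DiffR 𝓘(ℝ, E) M ⊤) := TopologicalSpace.induced
      (fun f : DiffR 𝓘(ℝ, E) M ⊤ => JMap t he hρ (toCR f)) inferInstance
  have hemb : IsEmbedding (fun f : DiffR 𝓘(ℝ, E) M ⊤ => JMap t he hρ (toCR f)) := by
    refine ⟨⟨rfl⟩, ?_⟩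
    intro f g hfg
    have h1 : (toCR f).1 = (toCR g).1 := by
      have h2 := congrArg (fun q : QSpace E (ι → E × ℝ) ⊤ ρ t => (q.1 : M → M)) hfg
      exact h2
    refine Diffeomorph.ext fun x => ?_
    exact congrFun h1 x
  have hGδ : IsGδ (range (fun f : DiffR 𝓘(ℝ, E) M ⊤ => JMap t he hρ (toCR f))) := by
    rw [range_J_diffeo t he hρ hle ht]
    refine ((IsGδ.inter (isGδ_of_closed (isClosed_range_J t he hρ hle ht)) ?_).inter ?_).inter
      (isOpen_ImmSet t).isGδ
    · exact (isGδ_injective M).preimage continuous_fst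
    · exact isGδ_of_closed ((isClosed_surjective M).preimage continuous_fst)
  have hP := polish_Gδ hGδ
  exact hemb.toHomeomorph.isClosedEmbedding.polishSpace

end Pool.Agent.H410R3.DG
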