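import Mathlib
import Pool.Agent.H410R3.DG.BP
import Pool.Agent.H410R3.DG.PolishDiff

/-!
# Orbit equivalence relations are Borel on a dense `G_δ` set
-/

open Set Filter Topology MeasureTheory
open scoped Manifold ContDiff

namespace Pool.Agent.H410R3.DG

open Pool.Agent.H410R3.KS

theorem generic_borel {X H : Type*} [TopologicalSpace X] [PolishSpace X] [TopologicalSpace H]
    [PolishSpace H] (R : Set (X × X × H)) (hR : IsClosed R) (Z : Set (X × H)) (hZ : IsClosed Z)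
    (mul : H → H → H) (hmul : Continuous (fun p : H × H => mul p.1 p.2))
    (hRZ : ∀ f g h h', (f, g, h) ∈ R → ((f, g, h') ∈ R ↔ ∃ z, (f, z) ∈ Z ∧ h' = mul h z)) :
    ∃ S : Set X, IsGδ S ∧ Dense S ∧
      MeasurableSet[borel (X × X)] {p : X × X | p.1 ∈ S ∧ p.2 ∈ S ∧ ∃ h, (p.1, p.2, h) ∈ R} := by
  -- property of Baire
  have hbp : ∀ b : Set H, IsOpen b → ∃ D : Set X, IsClosed D ∧
      IsMeagre {x | ¬ ((∃ z ∈ b, (x, z) ∈ Z) ↔ x ∈ D)} := by
    intro b hb
    rcases b.eq_empty_or_nonempty with rfl | hne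
    · refine ⟨∅, isClosed_empty, ?_⟩
      simp only [mem_empty_iff_false, false_and, exists_false, not_true_eq_false, ofPred_false]
      exact IsMeagre.empty
    · have _ : PolishSpace b := hb.polishSpace
      have _ : Nonempty b := hne.to_subtype
      obtain ⟨k, hk, hks⟩ := PolishSpace.exists_nat_nat_continuous_surjective b
      obtain ⟨D, hD, hDm⟩ := bp_proj {p : X × (ℕ → ℕ) | (p.1, (k p.2 : H)) ∈ Z}
        (hZ.preimage (continuous_fst.prodMk
          (continuous_subtype_val.comp (hk.comp continuous_snd))))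
      refine ⟨D, hD, ?_⟩
      have e : {x | ¬ ((∃ z ∈ b, (x, z) ∈ Z) ↔ x ∈ D)} =
          {x | ¬ ((∃ z, (x, z) ∈ {p : X × (ℕ → ℕ) | (p.1, (k p.2 : H)) ∈ Z}) ↔ x ∈ D)} := by
        ext x
        simp only [mem_ofPred_eq]
        have : (∃ z ∈ b, (x, z) ∈ Z) ↔ ∃ w, (x, (k w : H)) ∈ Z := by
          constructor
          · rintro ⟨z, hz, hxz⟩
            obtain ⟨w, hw⟩ := hks ⟨z, hz⟩
            exact ⟨w, by rw [hw]; exact hxz⟩
          · rintro ⟨w, hw⟩
            exact ⟨k w, (k w).2, hw⟩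
        rw [this]
      rw [e]
      exact hDm
  choose D hDc hDm using hbp
  let BH := TopologicalSpace.countableBasis H
  have hBHo : ∀ b ∈ BH, IsOpen b := fun b hb => TopologicalSpace.isOpen_of_mem_countableBasis hb
  have hBHc : BH.Countable := TopologicalSpace.countable_countableBasis H
  have _ : Countable BH := hBHc.to_subtype
  have hres : {x | ∀ b : BH, ((∃ z ∈ b.1, (x, z) ∈ Z) ↔ x ∈ D b.1 (hBHo b.1 b.2))} ∈
      residual X := by
    have h1 : IsMeagre (⋃ b : BH, {x | ¬ ((∃ z ∈ b.1, (x, z) ∈ Z) ↔ x ∈ D b.1 (hBHo b.1 b.2))}) :=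
      isMeagre_iUnion fun b => hDm b.1 (hBHo b.1 b.2)
    have h2 : (⋃ b : BH, {x | ¬ ((∃ z ∈ b.1, (x, z) ∈ Z) ↔ x ∈ D b.1 (hBHo b.1 b.2))})ᶜ =
        {x | ∀ b : BH, ((∃ z ∈ b.1, (x, z) ∈ Z) ↔ x ∈ D b.1 (hBHo b.1 b.2))} := by
      ext x
      simp only [mem_compl_iff, mem_iUnion, mem_ofPred_eq, not_exists, not_not]
    rw [← h2]
    exact h1
  have hBaire : BaireSpace X := by
    let _ := TopologicalSpace.upgradeIsCompletelyMetrizable X
    infer_instance
  obtain ⟨S, hSsub, hSG, hSd⟩ := mem_residual.1 hres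
  refine ⟨S, hSG, hSd, ?_⟩
  -- the Polish space of triples
  let PS : Set (X × X × H) := {p | p.1 ∈ S ∧ p.2.1 ∈ S ∧ p ∈ R}
  have hPS : IsGδ PS := by
    have h1 : IsGδ {p : X × X × H | p.1 ∈ S} := hSG.preimage continuous_fst
    have h2 : IsGδ {p : X × X × H | p.2.1 ∈ S} :=
      hSG.preimage (continuous_fst.comp continuous_snd)
    exact h1.inter (h2.inter (isGδ_of_closed hR))
  have _ : PolishSpace PS := polish_Gδ hPS
  let φ : PS → X × X := fun p => (p.1.1, p.1.2.1)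
  have hφ : Continuous φ := by fun_prop
  have hrange : {p : X × X | p.1 ∈ S ∧ p.2 ∈ S ∧ ∃ h, (p.1, p.2, h) ∈ R} = range φ := by
    ext p
    constructor
    · rintro ⟨h1, h2, h, h3⟩
      exact ⟨⟨(p.1, p.2, h), h1, h2, h3⟩, rfl⟩
    · rintro ⟨⟨⟨f, g, h⟩, h1, h2, h3⟩, rfl⟩
      exact ⟨h1, h2, h, h3⟩
  rw [hrange]
  let _ : MeasurableSpace (X × X) := borel _
  have _ : BorelSpace (X × X) := ⟨rfl⟩
  refine range_borel φ hφ fun U hU => ?_
  obtain ⟨O, hO, rfl⟩ := isOpen_induced_iff.1 hU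
  let BP := TopologicalSpace.countableBasis (X × X × H)
  have _ : Countable BP := (TopologicalSpace.countable_countableBasis (X × X × H)).to_subtype
  let good : Set (BP × BH) := {ab | ∀ p ∈ ab.1.1, ∀ z ∈ ab.2.1, (p.1, p.2.1, mul p.2.2 z) ∈ O}
  have e : φ ⁻¹' (φ '' (Subtype.val ⁻¹' O)) =
      ⋃ ab ∈ good, {p : PS | p.1 ∈ ab.1.1 ∧ p.1.1 ∈ D ab.2.1 (hBHo ab.2.1 ab.2.2)} := by
    ext p
    simp only [mem_preimage, mem_image, mem_iUnion, mem_ofPred_eq, exists_prop]
    constructor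
    · rintro ⟨⟨⟨f, g, h'⟩, hf, hg, hh'⟩, hO', hp⟩
      obtain ⟨⟨f1, g1, h⟩, hf1, hg1, hh⟩ := p
      simp only [φ, Prod.mk.injEq] at hp
      obtain ⟨rfl, rfl⟩ := hp
      obtain ⟨z, hz, rfl⟩ := (hRZ f g h h' hh).1 hh'
      have hcont : Continuous (fun q : (X × X × H) × H => (q.1.1, q.1.2.1, mul q.1.2.2 q.2)) := by
        refine (continuous_fst.comp continuous_fst).prodMk
          ((continuous_fst.comp (continuous_snd.comp continuous_fst)).prodMk ?_)
        exact hmul.comp ((continuous_snd.comp (continuous_snd.comp continuous_fst)).prodMk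
          continuous_snd)
      have hnh : (fun q : (X × X × H) × H => (q.1.1, q.1.2.1, mul q.1.2.2 q.2)) ⁻¹' O ∈
          𝓝 ((f, g, h), z) := hcont.continuousAt.preimage_mem_nhds (hO.mem_nhds hO')
      rw [nhds_prod_eq, Filter.mem_prod_iff] at hnh
      obtain ⟨V, hV, W, hW, hVW⟩ := hnh
      obtain ⟨a, ha, hpa, haV⟩ :=
        (TopologicalSpace.isBasis_countableBasis (X × X × H)).mem_nhds_iff.1 hV
      obtain ⟨b, hb, hzb, hbW⟩ :=
        (TopologicalSpace.isBasis_countableBasis H).mem_nhds_iff.1 hW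
      refine ⟨(⟨a, ha⟩, ⟨b, hb⟩), ?_, hpa, ?_⟩
      · intro p hp z' hz'
        exact hVW (show (p, z') ∈ V ×ˢ W from ⟨haV hp, hbW hz'⟩)
      · exact (hSsub hf1 ⟨b, hb⟩).1 ⟨z, hzb, hz⟩
    · rintro ⟨⟨a, b⟩, hab, hpa, hpD⟩
      obtain ⟨z, hzb, hz⟩ := (hSsub p.2.1 b).2 hpD
      refine ⟨⟨(p.1.1, p.1.2.1, mul p.1.2.2 z), p.2.1, p.2.2.1, ?_⟩, hab p.1 hpa z hzb, rfl⟩
      exact (hRZ p.1.1 p.1.2.1 p.1.2.2 _ p.2.2.2).2 ⟨z, hz, rfl⟩
  rw [e]
  refine MeasurableSet.biUnion (to_countable good) fun ab _ => ?_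
  have h1 : IsOpen {p : PS | p.1 ∈ ab.1.1} :=
    (TopologicalSpace.isOpen_of_mem_countableBasis ab.1.2).preimage continuous_subtype_val
  have h2 : IsClosed {p : PS | p.1.1 ∈ D ab.2.1 (hBHo ab.2.1 ab.2.2)} :=
    (hDc ab.2.1 (hBHo ab.2.1 ab.2.2)).preimage (continuous_fst.comp continuous_subtype_val)
  let _ : MeasurableSpace PS := borel PS
  have _ : BorelSpace PS := ⟨rfl⟩
  exact h1.measurableSet.inter h2.measurableSet

variable {E : Type} [NormedAddCommGroup E] [NormedSpace ℝ E] [FiniteDimensional ℝ E]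
  {M : Type} [TopologicalSpace M] [ChartedSpace E M]

theorem generic_conj_borel [IsManifold 𝓘(ℝ, E) ∞ M] [CompactSpace M] [T2Space M] :
    let _ : TopologicalSpace (DiffR 𝓘(ℝ, E) M ⊤) := crTopology 𝓘(ℝ, E) M ⊤
    ∃ S : Set (DiffR 𝓘(ℝ, E) M ⊤), IsGδ S ∧ Dense S ∧
      MeasurableSet[borel (DiffR 𝓘(ℝ, E) M ⊤ × DiffR 𝓘(ℝ, E) M ⊤)]
        {p : DiffR 𝓘(ℝ, E) M ⊤ × DiffR 𝓘(ℝ, E) M ⊤ |
          p.1 ∈ S ∧ p.2 ∈ S ∧ TopConj p.1.map p.2.map} := by
  intro _
  have _ : SecondCountableTopology M := ChartedSpace.secondCountable_of_sigmaCompact E M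
  have _ : PolishSpace (DiffR 𝓘(ℝ, E) M ⊤) := polish_diff
  have _ : PolishSpace (HomeoP M) := polish_HomeoP M
  have hev := continuous_eval_of_le (E := E) (M := M) (r := ⊤) le_rfl
  have hι : Continuous (fun f : DiffR 𝓘(ℝ, E) M ⊤ => (⟨f.map, Diffeomorph.continuous f⟩ : C(M, M))) :=
    ContinuousMap.continuous_of_continuous_uncurry _ hev
  set ι : DiffR 𝓘(ℝ, E) M ⊤ → C(M, M) := fun f => ⟨f.map, Diffeomorph.continuous f⟩ with hιdef
  have hcomp := ContinuousMap.continuous_comp' (X := M) (Y := M) (Z := M)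
  obtain ⟨S, hS1, hS2, hS3⟩ := generic_borel (X := DiffR 𝓘(ℝ, E) M ⊤) (H := HomeoP M)
    {p | p.2.2.1.1.comp (ι p.1) = (ι p.2.1).comp p.2.2.1.1}
    (by
      refine isClosed_eq ?_ ?_
      · exact hcomp.comp ((hι.comp continuous_fst).prodMk (continuous_fst.comp
          (continuous_subtype_val.comp (continuous_snd.comp continuous_snd))))
      · exact hcomp.comp ((continuous_fst.comp
          (continuous_subtype_val.comp (continuous_snd.comp continuous_snd))).prodMk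
          (hι.comp (continuous_fst.comp continuous_snd))))
    {p | p.2.1.1.comp (ι p.1) = (ι p.1).comp p.2.1.1}
    (by
      refine isClosed_eq ?_ ?_
      · exact hcomp.comp ((hι.comp continuous_fst).prodMk (continuous_fst.comp
          (continuous_subtype_val.comp continuous_snd)))
      · exact hcomp.comp ((continuous_fst.comp
          (continuous_subtype_val.comp continuous_snd)).prodMk (hι.comp continuous_fst)))
    HomeoP.mul HomeoP.continuous_mul
    (by
      intro f g h h' hh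
      have hh1 : ∀ x, h.1.1 (f.map x) = g.map (h.1.1 x) := fun x => DFunLike.congr_fun hh x
      constructor
      · intro hh'
        have hh2 : ∀ x, h'.1.1 (f.map x) = g.map (h'.1.1 x) := fun x => DFunLike.congr_fun hh' x
        refine ⟨h.inv.mul h', ?_, ?_⟩
        · ext x
          show h.1.2 (h'.1.1 (f.map x)) = f.map (h.1.2 (h'.1.1 x))
          have h3 : h.1.1 (f.map (h.1.2 (h'.1.1 x))) = g.map (h'.1.1 x) := by
            rw [hh1, h.inv_right]
          rw [hh2, ← h3, h.inv_left]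
        · refine HomeoP.ext' fun x => ?_
          show h'.1.1 x = h.1.1 (h.1.2 (h'.1.1 x))
          rw [h.inv_right]
      · rintro ⟨z, hz, rfl⟩
        have hz1 : ∀ x, z.1.1 (f.map x) = f.map (z.1.1 x) := fun x => DFunLike.congr_fun hz x
        ext x
        show h.1.1 (z.1.1 (f.map x)) = g.map (h.1.1 (z.1.1 x))
        rw [hz1, hh1])
  refine ⟨S, hS1, hS2, ?_⟩
  convert hS3 using 1
  ext p
  simp only [mem_ofPred_eq]
  refine and_congr_right fun _ => and_congr_right fun _ => ?_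
  constructor
  · rintro ⟨h, hh⟩
    refine ⟨HomeoP.of h, ?_⟩
    ext x
    exact hh x
  · rintro ⟨h, hh⟩
    exact ⟨h.toHomeo, fun x => DFunLike.congr_fun hh x⟩

end Pool.Agent.H410R3.DG
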