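import Mathlib
import Pool.Agent.H410R3.DG.JSpace

/-!
# Diffeomorphisms topologically conjugate to a structurally stable one
-/

open Set Filter Topology
open scoped Manifold ContDiff

namespace Pool.Agent.H410R3.DG

open Pool.Agent.H410R3.KS

section General

variable {E H : Type} [NormedAddCommGroup E] [NormedSpace ℝ E] [FiniteDimensional ℝ E]
  [TopologicalSpace H] (I : ModelWithCorners ℝ E H)
  (M : Type) [TopologicalSpace M] [ChartedSpace H M]

variable {I M} in
/-- A `C^r` diffeomorphism, seen as a `C^s` diffeomorphism, for `s ≤ r`. -/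
def weaken {r s : ℕ∞} (h : s ≤ r) (f : DiffR I M r) : DiffR I M s where
  toEquiv := Diffeomorph.toEquiv f
  contMDiff_toFun := (Diffeomorph.contMDiff_toFun f).of_le (by exact_mod_cast h)
  contMDiff_invFun := (Diffeomorph.contMDiff_invFun f).of_le (by exact_mod_cast h)

variable {I M} in
/-- A diffeomorphism `f` of `M` (of class `C^1`) is structurally stable if it has a neighbourhood `U`
in the `C^1` topology such that every `C^1` diffeomorphism `g ∈ U` is topologically conjugate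
to `f`. -/
def StructurallyStable (f : DiffR I M 1) : Prop :=
  ∃ U : Set (DiffR I M 1), IsOpen[crTopology I M 1] U ∧ f ∈ U ∧ ∀ g ∈ U, TopConj g.map f.map

/-- The set of the `C^s` diffeomorphisms of `M` which are topologically conjugate to a structurally
stable diffeomorphism of `M` of class `C^r`, `r ≥ 1`. -/
def conjToStable (s : ℕ∞) {r : ℕ∞} (hr : 1 ≤ r) : Set (DiffR I M s) :=
  {f | ∃ g : DiffR I M r, StructurallyStable (weaken hr g) ∧ TopConj f.map g.map}

end General

theorem TopConj.symm' {M : Type} [TopologicalSpace M] {f g : M → M} (h : TopConj f g) :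
    TopConj g f := by
  obtain ⟨h, hh⟩ := h
  refine ⟨h.symm, fun x => ?_⟩
  rw [h.symm_apply_eq, hh, h.apply_symm_apply]

theorem TopConj.trans' {M : Type} [TopologicalSpace M] {f g k : M → M} (h : TopConj f g)
    (h' : TopConj g k) : TopConj f k := by
  obtain ⟨h, hh⟩ := h
  obtain ⟨h', hh'⟩ := h'
  refine ⟨h.trans h', fun x => ?_⟩
  simp only [Homeomorph.trans_apply]
  rw [hh, hh']

section

variable {E : Type} [NormedAddCommGroup E] [NormedSpace ℝ E] [FiniteDimensional ℝ E]
  {M : Type} [TopologicalSpace M] [ChartedSpace E M]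

theorem conj_class_meas [IsManifold 𝓘(ℝ, E) ∞ M] [CompactSpace M] [T2Space M] (s : ℕ∞)
    {g : M → M} (hg : Continuous g) :
    @MeasurableSet (DiffR 𝓘(ℝ, E) M s) (@borel _ (crTopology 𝓘(ℝ, E) M s))
      {f | TopConj f.map g} := by
  let _ := crTopology 𝓘(ℝ, E) M s
  have _ : SecondCountableTopology M := ChartedSpace.secondCountable_of_sigmaCompact E M
  have hev := continuous_eval_of_le (E := E) (M := M) (r := s) le_rfl
  have hι : Continuous (fun f : DiffR 𝓘(ℝ, E) M s => (⟨f.map, Diffeomorph.continuous f⟩ : C(M, M))) :=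
    ContinuousMap.continuous_of_continuous_uncurry _ hev
  have h1 := conj_class_borel (⟨g, hg⟩ : C(M, M))
  have h2 : @Measurable _ _ (@borel _ (crTopology 𝓘(ℝ, E) M s)) (borel C(M, M))
      (fun f : DiffR 𝓘(ℝ, E) M s => (⟨f.map, Diffeomorph.continuous f⟩ : C(M, M))) :=
    hι.borel_measurable
  have h3 := h2 h1
  have e : {f : DiffR 𝓘(ℝ, E) M s | TopConj f.map g} =
      (fun f : DiffR 𝓘(ℝ, E) M s => (⟨f.map, Diffeomorph.continuous f⟩ : C(M, M))) ⁻¹'
        {f : C(M, M) | ∃ h : M ≃ₜ M, ∀ x, h ((⟨g, hg⟩ : C(M, M)) x) = f (h x)} := by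
    ext f
    constructor
    · intro h
      exact TopConj.symm' h
    · intro h
      have h' : TopConj g f.map := h
      exact TopConj.symm' h'
  rw [e]
  exact h3

theorem conjToStable_borel [IsManifold 𝓘(ℝ, E) ∞ M] [CompactSpace M] [T2Space M] (s : ℕ∞)
    {r : ℕ∞} (hr : 1 ≤ r) :
    @MeasurableSet (DiffR 𝓘(ℝ, E) M s) (@borel _ (crTopology 𝓘(ℝ, E) M s))
      (conjToStable 𝓘(ℝ, E) M s hr) := by
  classical
  have hsc := secondCountable_cr (E := E) (M := M) 1
  obtain ⟨B, hBc, -, hB⟩ := @TopologicalSpace.exists_countable_basis _ (crTopology 𝓘(ℝ, E) M 1) hsc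
  let B' : Set (Set (DiffR 𝓘(ℝ, E) M 1)) := {b ∈ B | ∃ g : DiffR 𝓘(ℝ, E) M r,
    StructurallyStable (weaken hr g) ∧ weaken hr g ∈ b ∧ ∀ g' ∈ b, TopConj g'.map g.map}
  have hB'c : B'.Countable := hBc.mono fun b hb => hb.1
  have hch : ∀ b : B', ∃ g : DiffR 𝓘(ℝ, E) M r,
    StructurallyStable (weaken hr g) ∧ weaken hr g ∈ b.1 ∧ ∀ g' ∈ b.1, TopConj g'.map g.map :=
    fun b => b.2.2
  choose G hG1 hG2 hG3 using hch
  have _ : Countable B' := hB'c.to_subtype
  have e : conjToStable 𝓘(ℝ, E) M s hr = ⋃ b : B', {f | TopConj f.map (G b).map} := by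
    ext f
    simp only [mem_iUnion, mem_ofPred_eq]
    constructor
    · rintro ⟨g, hg, hfg⟩
      obtain ⟨U, hU, hgU, hUc⟩ := hg
      obtain ⟨b, hb, hgb, hbU⟩ := @TopologicalSpace.IsTopologicalBasis.exists_subset_of_mem_open _
        (crTopology 𝓘(ℝ, E) M 1) B hB _ U hgU hU
      have hb' : b ∈ B' := ⟨hb, g, ⟨U, hU, hgU, hUc⟩, hgb, fun g' hg' => hUc g' (hbU hg')⟩
      refine ⟨⟨b, hb'⟩, ?_⟩
      have h1 : TopConj g.map (G ⟨b, hb'⟩).map := hG3 ⟨b, hb'⟩ _ hgb
      exact TopConj.trans' hfg h1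
    · rintro ⟨b, hb⟩
      exact ⟨G b, hG1 b, hb⟩
  rw [e]
  exact @MeasurableSet.iUnion _ _ (@borel _ (crTopology 𝓘(ℝ, E) M s)) _ _
    fun b => conj_class_meas s (Diffeomorph.continuous (G b))

end

end Pool.Agent.H410R3.DG
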